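import Mathlib

/-!
# MP_f50317_co, girth 1, 2 mod 4: arithmetic of the packing lemma (helper45)
-/

set_option autoImplicit false

namespace Pool.Agent.H45.GF

/-- `E` is the excess `|T| - l L`; `R` repeated names with `N` labels, `S` single labels -/
theorem arith_core (κ l R N S E Dr Ds : ℤ) (hκ : 0 ≤ κ) (hR : 1 ≤ R) (hN : 2 * R ≤ N) (hS : 0 ≤ S)
    (hK : 2 * R + S ≤ 2 * κ + 3) (hl1 : 1 ≤ l) (hl : 2 * (κ + 1) * κ ≤ l) (hDr : 0 ≤ Dr)
    (hDs : 0 ≤ Ds) (hE : Dr + Ds ≤ E) (hDsS : Ds ≤ S * (l - 1))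
    (h : l * (N - R + 1) ≤ R * E + (R - 1) * (Dr + N - 1) + R * (Ds + S)) :
    l * (N + S - (2 * κ + 3)) + 1 ≤ (2 * κ + 2) * E := by
  have hE0 : 0 ≤ E := by linarith
  -- the two derived inequalities
  have h1 : l * (N - R + 1 - S) ≤ (2 * R - 1) * E + (R - 1) * (N - 1) + (R - 1) * S := by
    nlinarith [mul_nonneg (sub_nonneg.2 hR) (sub_nonneg.2 hE)]
  have h2 : l * (N - R + 1) ≤ 2 * R * E + (R - 1) * (N - 1) + R * S := by
    nlinarith [mul_nonneg (sub_nonneg.2 hR) (sub_nonneg.2 hE)]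
  have hRl : 2 * R * (R - 1) ≤ l := by
    have h3 : R ≤ κ + 1 := by omega
    have : R * (R - 1) ≤ (κ + 1) * κ := by nlinarith
    linarith
  rcases lt_trichotomy S 1 with hS1 | hS1 | hS1
  · -- S = 0
    have hS0 : S = 0 := by omega
    subst hS0
    have hR2 : R ≤ κ + 1 := by omega
    have h4 : (2 * R - 1) * (l * (N - 2 * R - 1) + 1) ≤ (2 * R - 1) * (2 * R * E) := by
      have h5 : (2 * R) * (l * (N - R + 1)) ≤
          (2 * R) * ((2 * R - 1) * E + (R - 1) * (N - 1)) := by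
        apply mul_le_mul_of_nonneg_left _ (by linarith)
        linarith
      have h6 : 0 ≤ N * (l - 2 * R * (R - 1)) :=
        mul_nonneg (by linarith) (by linarith)
      have h7 : 2 * R - 1 ≤ l * (2 * R ^ 2 + 2 * R - 1) := by nlinarith
      have h8 : 0 ≤ 2 * R * (R - 1) := mul_nonneg (by linarith) (by linarith)
      nlinarith
    have h9 : l * (N - 2 * R - 1) + 1 ≤ 2 * R * E := le_of_mul_le_mul_left h4 (by linarith)
    nlinarith [mul_nonneg (sub_nonneg.2 hR2) hE0, mul_nonneg (sub_nonneg.2 hR2) (by linarith : 0 ≤ l)]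
  · -- S = 1
    subst hS1
    have hR2 : R ≤ κ + 1 := by omega
    have h4 : (2 * R - 1) * (l * (N - 2 * R) + 1) ≤ (2 * R - 1) * (2 * R * E) := by
      have h5 : (2 * R) * (l * (N - R)) ≤
          (2 * R) * ((2 * R - 1) * E + (R - 1) * N) := by
        apply mul_le_mul_of_nonneg_left _ (by linarith)
        linarith
      have h6 : 0 ≤ N * (l - 2 * R * (R - 1)) :=
        mul_nonneg (by linarith) (by linarith)
      rcases eq_or_lt_of_le hR with hR1 | hR1
      · rw [← hR1] at h5 h6 ⊢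
        nlinarith
      · have hR3 : 2 ≤ R := by omega
        have h7a : 2 * R * 1 ≤ 2 * R * (R - 1) :=
          mul_le_mul_of_nonneg_left (by linarith) (by linarith)
        have h7b : 2 * R * (R - 1) * 1 ≤ 2 * R * (R - 1) * l :=
          mul_le_mul_of_nonneg_left hl1 (by linarith)
        have h7 : 2 * R - 1 ≤ 2 * R * (R - 1) * l := by linarith
        nlinarith
    have h9 : l * (N - 2 * R) + 1 ≤ 2 * R * E := le_of_mul_le_mul_left h4 (by linarith)
    nlinarith [mul_nonneg (sub_nonneg.2 hR2) hE0, mul_nonneg (sub_nonneg.2 hR2) (by linarith : 0 ≤ l)]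
  · -- S ≥ 2
    have hS2 : 2 ≤ S := by omega
    have hl2 : (2 * R + S - 1) * (2 * R + S - 3) ≤ 2 * l := by
      have h3 : 2 * R + S - 1 ≤ 2 * κ + 2 := by linarith
      have h4 : 2 * R + S - 3 ≤ 2 * κ := by linarith
      have h5 : (2 * R + S - 1) * (2 * R + S - 3) ≤ (2 * κ + 2) * (2 * κ) :=
        mul_le_mul h3 h4 (by linarith) (by linarith)
      nlinarith
    obtain ⟨ν, rfl⟩ : ∃ ν, N = 2 * R + ν := ⟨N - 2 * R, by ring⟩
    have hν : 0 ≤ ν := by linarith
    have hA : (2 * R + S - 1) * (R - 1) ≤ (S - 1) * l := by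
      have h3 : 2 * (R - 1) ≤ (S - 1) * (2 * R + S - 3) := by nlinarith
      have h4 : (2 * R + S - 1) * (2 * (R - 1)) ≤ (2 * R + S - 1) * ((S - 1) * (2 * R + S - 3)) :=
        mul_le_mul_of_nonneg_left h3 (by linarith)
      have h5 : (S - 1) * ((2 * R + S - 1) * (2 * R + S - 3)) ≤ (S - 1) * (2 * l) :=
        mul_le_mul_of_nonneg_left hl2 (by linarith)
      nlinarith
    have hB : (R - 1) * (2 * R - 1) + R * S + 1 ≤ l * (R + 1) := by
      have h3 : (R + 1) * ((2 * R + S - 1) * (2 * R + S - 3)) ≤ (R + 1) * (2 * l) :=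
        mul_le_mul_of_nonneg_left hl2 (by linarith)
      obtain ⟨s, rfl⟩ : ∃ s, S = s + 2 := ⟨S - 2, by ring⟩
      obtain ⟨r, rfl⟩ : ∃ r, R = r + 1 := ⟨R - 1, by ring⟩
      have hs : 0 ≤ s := by linarith
      have hr : 0 ≤ r := by linarith
      nlinarith [mul_nonneg hs hr, mul_nonneg hs hs, mul_nonneg hr hr,
        mul_nonneg (mul_nonneg hs hr) hr, mul_nonneg (mul_nonneg hs hs) hr,
        mul_nonneg (mul_nonneg hr hr) hr]
    have h4 : (2 * R) * (l * ν + 1) ≤ (2 * R) * ((2 * R + S - 1) * E) := by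
      have h5 : (2 * R + S - 1) * (l * (2 * R + ν - R + 1)) ≤
          (2 * R + S - 1) * (2 * R * E + (R - 1) * (2 * R + ν - 1) + R * S) :=
        mul_le_mul_of_nonneg_left h2 (by linarith)
      have h6 : (2 * R + S - 1) * ((R - 1) * (2 * R - 1) + R * S + 1) ≤
          (2 * R + S - 1) * (l * (R + 1)) := mul_le_mul_of_nonneg_left hB (by linarith)
      have h7 : ν * ((2 * R + S - 1) * (R - 1)) ≤ ν * ((S - 1) * l) :=
        mul_le_mul_of_nonneg_left hA hν
      nlinarith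
    have h9 : l * ν + 1 ≤ (2 * R + S - 1) * E := le_of_mul_le_mul_left h4 (by linarith)
    have h10 : 0 ≤ 2 * κ + 3 - (2 * R + S) := by linarith
    nlinarith [mul_nonneg h10 hE0, mul_nonneg h10 (by linarith : 0 ≤ l)]

/-- linear bound: all labels have names in a set of at most `q` names -/
theorem arith_lin (q l R N S E Dr Ds : ℤ) (hR : 1 ≤ R) (hN : 2 * R ≤ N) (hS : 0 ≤ S)
    (hq : R + S ≤ q) (hl1 : 1 ≤ l) (hDr : 0 ≤ Dr)
    (hDs : 0 ≤ Ds) (hE : Dr + Ds ≤ E) (hDsS : Ds ≤ S * (l - 1))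
    (h : l * (N - R + 1) ≤ R * E + (R - 1) * (Dr + N - 1) + R * (Ds + S)) :
    2 * q * l * (N + S) ≤ (2 * q - 1) * (l * (N + S) + E) + 2 * q * l + (q - 1) * (N + S) := by
  have hE0 : 0 ≤ E := by linarith
  have h1 : l * (N - R + 1 - S) ≤ (2 * R - 1) * E + (R - 1) * (N - 1) + (R - 1) * S := by
    nlinarith [mul_nonneg (sub_nonneg.2 hR) (sub_nonneg.2 hE)]
  have h2 : 0 ≤ (q - R) * E := mul_nonneg (by linarith) hE0
  have h3 : 0 ≤ (q - R) * (N + S) := mul_nonneg (by linarith) (by linarith)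
  have h4 : 0 ≤ (q - R - S) * l := mul_nonneg (by linarith) (by linarith)
  have h5 : 0 ≤ S * (l - 1) := mul_nonneg hS (by linarith)
  have h6 : 0 ≤ (R - 1) * (l - 1) := mul_nonneg (by linarith) (by linarith)
  have h7 : 0 ≤ R * l := mul_nonneg (by linarith) (by linarith)
  nlinarith

end Pool.Agent.H45.GF
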