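import Pool.Agent.H45.GF.Data
import Pool.Agent.H45.GF.Arith

/-!
# MP_f50317_co, girth 1, 2 mod 4: the tree inequality (helper45)
-/

set_option autoImplicit false
set_option linter.unusedSectionVars false
set_option linter.unusedVariables false

namespace Pool.Agent.H45.GF

open Finset Pool.Agent.H38

section
variable {V : Type*} [DecidableEq V] {G : SimpleGraph V}

open scoped Classical in
/-- all labels at distance at least `2 l - 1`: private paths -/
theorem basic_bound {ι : Type*} {W T : Finset V} (hW : Sparse G W) {l : ℕ} (hl : 1 ≤ l)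
    (hTW : T ⊆ W) (hTs : IsSub G T) (N : Finset ι) (Λ : ι → Finset V)
    (h1 : ∀ x ∈ N, ∀ y ∈ N, x ≠ y → ∀ p ∈ Λ x, ∀ q ∈ Λ y, p ∈ T → q ∈ T →
      2 * l ≤ dd G W p q + 1)
    (h2 : ∀ x ∈ N, ∀ p ∈ Λ x, ∀ q ∈ Λ x, p ≠ q → p ∈ T → q ∈ T → 2 * l ≤ dd G W p q + 1)
    (hL : 2 ≤ ∑ x ∈ N, (Λ x ∩ T).card) :
    l * (∑ x ∈ N, (Λ x ∩ T).card) ≤ T.card := by
  set C : ι → Finset V := fun x => Λ x ∩ T with hC
  set Lb := N.biUnion C with hLb
  have hdisj : ∀ x ∈ N, ∀ y ∈ N, x ≠ y → Disjoint (C x) (C y) :=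
    fun x hx y hy hxy => classes_disjoint hW hl hTW N Λ h1 hx hy hxy
  have hLbc : Lb.card = ∑ x ∈ N, (C x).card :=
    card_biUnion (fun x hx y hy hxy => hdisj x hx y hy hxy)
  have hLT : Lb ⊆ T := by
    rw [hLb, biUnion_subset]
    intro x _
    exact inter_subset_right
  have hL' : 2 ≤ Lb.card := by rw [hLbc]; exact hL
  obtain ⟨ρ, hρ⟩ := card_pos.1 (show 0 < Lb.card by omega)
  obtain ⟨w0, hw0, hw0ρ⟩ : ∃ w0 ∈ Lb, w0 ≠ ρ := by
    by_contra hcon
    push Not at hcon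
    have : Lb ⊆ {ρ} := fun v hv => by rw [mem_singleton]; exact hcon v hv
    have := card_le_card this
    rw [card_singleton] at this
    omega
  obtain ⟨par, dep, R, hadj⟩ := exists_rooted (ρ := ρ) hW T.card T rfl hTW hTs (hLT hρ)
  have hF : Far Lb par dep l := by
    intro u hu w hw huw i hi j hj he
    rw [hLb, mem_biUnion] at hu hw
    obtain ⟨x, hx, hu⟩ := hu
    obtain ⟨y, hy, hw⟩ := hw
    rw [hC, mem_inter] at hu hw
    have h4 := R.dd_le hW hTW hadj hu.2 hw.2 hi hj he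
    by_cases hxy : x = y
    · subst hxy
      have := h2 x hx u hu.1 w hw.1 huw hu.2 hw.2
      omega
    · have h3 := h1 x hx y hy hxy u hu.1 w hw.1 hu.2 hw.2
      omega
  have h3 := count_one R hF hLT hρ hw0 hw0ρ
  rw [← hLbc]
  omega

open scoped Classical in
/-- the tree inequality -/
theorem tree_bound {ι : Type*} {W T : Finset V} (hW : Sparse G W) {l k : ℕ} (hl : 1 ≤ l)
    (hk : 2 ≤ k) (hkl : 2 * (k - 1) * (k - 2) ≤ l)
    (hTW : T ⊆ W) (hTs : IsSub G T) (N : Finset ι) (Λ : ι → Finset V)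
    (h1 : ∀ x ∈ N, ∀ y ∈ N, x ≠ y → ∀ p ∈ Λ x, ∀ q ∈ Λ y, p ∈ T → q ∈ T →
      2 * l ≤ dd G W p q + 1)
    (h2 : ∀ x ∈ N, ∀ p ∈ Λ x, ∀ q ∈ Λ x, p ≠ q → p ∈ T → q ∈ T → 4 * l ≤ dd G W p q + 1)
    (hnum : 2 * (N.filter (fun x => 2 ≤ (Λ x ∩ T).card)).card +
      (N.filter (fun x => (Λ x ∩ T).card = 1)).card ≤ 2 * k - 1) :
    ((2 * k - 1) * l) * (∑ x ∈ N, (Λ x ∩ T).card) + 1 ≤
        (2 * k - 2) * T.card + (2 * k - 1) * l ∨
      ((N.filter (fun x => 2 ≤ (Λ x ∩ T).card)).card = 0 ∧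
        ∑ x ∈ N, (Λ x ∩ T).card = 2 * k - 1 ∧ T.card = (2 * k - 1) * l) := by
  set A := N.filter (fun x => 2 ≤ (Λ x ∩ T).card) with hA
  set B := N.filter (fun x => (Λ x ∩ T).card = 1) with hB
  set L := ∑ x ∈ N, (Λ x ∩ T).card with hLdef
  have hpos : 0 < T.card := card_pos.mpr hTs.1
  obtain ⟨κ, rfl⟩ : ∃ κ, k = κ + 2 := ⟨k - 2, by omega⟩
  have ek1 : 2 * (κ + 2) - 1 = 2 * κ + 3 := by omega
  have ek2 : 2 * (κ + 2) - 2 = 2 * κ + 2 := by omega
  have ek3 : κ + 2 - 1 = κ + 1 := by omega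
  have ek4 : κ + 2 - 2 = κ := by omega
  rw [ek1] at hnum ⊢
  rw [ek2]
  rw [ek3, ek4] at hkl
  have hsplit : L = ∑ x ∈ A, (Λ x ∩ T).card + B.card := by
    have e1 : L = ∑ x ∈ A, (Λ x ∩ T).card +
        ∑ x ∈ N.filter (fun x => ¬ 2 ≤ (Λ x ∩ T).card), (Λ x ∩ T).card := by
      rw [hLdef, hA, sum_filter_add_sum_filter_not]
    rw [e1]
    congr 1
    rw [hB, card_filter, sum_filter]
    apply sum_congr rfl
    intro x _
    by_cases h : 2 ≤ (Λ x ∩ T).card
    · rw [if_neg (not_not.mpr h), if_neg (by omega)]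
    · rw [if_pos h]
      split_ifs with h' <;> omega
  have hLA : 2 * A.card ≤ ∑ x ∈ A, (Λ x ∩ T).card := by
    have : ∑ x ∈ A, 2 ≤ ∑ x ∈ A, (Λ x ∩ T).card := by
      apply sum_le_sum
      intro x hx
      rw [hA, mem_filter] at hx
      exact hx.2
    rw [sum_const, smul_eq_mul] at this
    omega
  have h1' : ∀ x ∈ N, ∀ p ∈ Λ x, ∀ q ∈ Λ x, p ≠ q → p ∈ T → q ∈ T →
      2 * l ≤ dd G W p q + 1 := by
    intro x hx p hp q hq hpq hpT hqT
    have := h2 x hx p hp q hq hpq hpT hqT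
    omega
  by_cases hL2 : L ≤ 1
  · left
    have h3 : ((2 * κ + 3) * l) * L ≤ ((2 * κ + 3) * l) * 1 := Nat.mul_le_mul_left _ hL2
    have h4 : 1 ≤ (2 * κ + 2) * T.card :=
      Nat.one_le_iff_ne_zero.mpr (Nat.mul_ne_zero (by omega) (by omega))
    omega
  by_cases hA0 : A.card = 0
  · have hbasic := basic_bound hW hl hTW hTs N Λ h1 h1' (by omega)
    rw [← hLdef] at hbasic
    have hAe : A = ∅ := card_eq_zero.mp hA0
    have hLB : L = B.card := by rw [hsplit, hAe]; simp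
    have hLle : L ≤ 2 * κ + 3 := by omega
    by_cases hLeq : L = 2 * κ + 3
    · by_cases hTeq : T.card = (2 * κ + 3) * l
      · right; exact ⟨hA0, hLeq, hTeq⟩
      · left
        have h3 : (2 * κ + 3) * l + 1 ≤ T.card := by
          rw [hLeq, mul_comm] at hbasic
          omega
        rw [hLeq]
        nlinarith [h3]
    · left
      have hL3 : L ≤ 2 * κ + 2 := by omega
      nlinarith [hbasic, Nat.mul_le_mul_left l hL3]
  · left
    have hne : A.Nonempty := card_pos.1 (by omega)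
    obtain ⟨Dr, Ds, d1, d2, d3⟩ := packing_data hW hl hTW hTs N Λ h1 h2 A B hA hB hne
    rw [← hLdef] at d1 d3
    set LA := ∑ x ∈ A, (Λ x ∩ T).card with hLAdef
    have hApos : 1 ≤ A.card := by omega
    have key := arith_core (κ := κ) (l := l) (R := A.card) (N := LA) (S := B.card)
      (E := (T.card : ℤ) - l * L) (Dr := Dr) (Ds := Ds) (by positivity) (by exact_mod_cast hApos)
      (by exact_mod_cast hLA) (by positivity) (by exact_mod_cast hnum) (by exact_mod_cast hl)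
      (by exact_mod_cast hkl) (by positivity) (by positivity)
      (by
        have : ((l * L + Dr + Ds : ℕ) : ℤ) ≤ T.card := by exact_mod_cast d1
        push_cast at this
        linarith)
      (by
        have : ((Ds : ℕ) : ℤ) ≤ ((B.card * (l - 1) : ℕ) : ℤ) := by exact_mod_cast d2
        rw [Nat.cast_mul, Nat.cast_sub hl] at this
        exact_mod_cast this)
      (by
        have h5 : ((l * LA + A.card * (l * L) : ℕ) : ℤ) ≤
          ((A.card * T.card + (A.card - 1) * (Dr + (LA - 1)) +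
          A.card * (Ds + B.card) + (A.card - 1) * l : ℕ) : ℤ) := by exact_mod_cast d3
        have hLA1 : 1 ≤ LA := by omega
        push_cast [Nat.cast_sub hApos, Nat.cast_sub hLA1] at h5
        linarith)
    have h6 : ((2 * κ + 3) * l * L + 1 : ℤ) ≤ (2 * κ + 2) * T.card + (2 * κ + 3) * l := by
      have h7 : (L : ℤ) = LA + B.card := by exact_mod_cast hsplit
      rw [h7] at key ⊢
      linarith
    exact_mod_cast h6

open scoped Classical in
/-- linear bound for the labels with at most `q` names -/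
theorem linear_bound {ι : Type*} {W T : Finset V} (hW : Sparse G W) {l q : ℕ} (hl : 1 ≤ l)
    (hq : 1 ≤ q) (hTW : T ⊆ W) (hTs : IsSub G T) (N : Finset ι) (hNq : N.card ≤ q)
    (Λ : ι → Finset V)
    (h1 : ∀ x ∈ N, ∀ y ∈ N, x ≠ y → ∀ p ∈ Λ x, ∀ q ∈ Λ y, p ∈ T → q ∈ T →
      2 * l ≤ dd G W p q + 1)
    (h2 : ∀ x ∈ N, ∀ p ∈ Λ x, ∀ q ∈ Λ x, p ≠ q → p ∈ T → q ∈ T → 4 * l ≤ dd G W p q + 1) :
    2 * q * l * (∑ x ∈ N, (Λ x ∩ T).card) ≤
      (2 * q - 1) * T.card + 2 * q * l + (q - 1) * (∑ x ∈ N, (Λ x ∩ T).card) := by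
  set A := N.filter (fun x => 2 ≤ (Λ x ∩ T).card) with hA
  set B := N.filter (fun x => (Λ x ∩ T).card = 1) with hB
  set L := ∑ x ∈ N, (Λ x ∩ T).card with hLdef
  have hsplit : L = ∑ x ∈ A, (Λ x ∩ T).card + B.card := by
    have e1 : L = ∑ x ∈ A, (Λ x ∩ T).card +
        ∑ x ∈ N.filter (fun x => ¬ 2 ≤ (Λ x ∩ T).card), (Λ x ∩ T).card := by
      rw [hLdef, hA, sum_filter_add_sum_filter_not]
    rw [e1]
    congr 1
    rw [hB, card_filter, sum_filter]
    apply sum_congr rfl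
    intro x _
    by_cases h : 2 ≤ (Λ x ∩ T).card
    · rw [if_neg (not_not.mpr h), if_neg (by omega)]
    · rw [if_pos h]
      split_ifs with h' <;> omega
  have hLA : 2 * A.card ≤ ∑ x ∈ A, (Λ x ∩ T).card := by
    have : ∑ x ∈ A, 2 ≤ ∑ x ∈ A, (Λ x ∩ T).card := by
      apply sum_le_sum
      intro x hx
      rw [hA, mem_filter] at hx
      exact hx.2
    rw [sum_const, smul_eq_mul] at this
    omega
  have hABN : A.card + B.card ≤ N.card := by
    have hAB : Disjoint A B := by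
      rw [disjoint_left]
      intro x hx hx'
      rw [hA, mem_filter] at hx
      rw [hB, mem_filter] at hx'
      omega
    rw [← card_union_of_disjoint hAB]
    exact card_le_card (union_subset (filter_subset _ _) (filter_subset _ _))
  have h1' : ∀ x ∈ N, ∀ p ∈ Λ x, ∀ q ∈ Λ x, p ≠ q → p ∈ T → q ∈ T →
      2 * l ≤ dd G W p q + 1 := by
    intro x hx p hp q hq hpq hpT hqT
    have := h2 x hx p hp q hq hpq hpT hqT
    omega
  obtain ⟨r, rfl⟩ : ∃ r, q = r + 1 := ⟨q - 1, by omega⟩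
  have e1 : 2 * (r + 1) - 1 = 2 * r + 1 := by omega
  rw [e1, Nat.add_sub_cancel]
  by_cases hL2 : L ≤ 1
  · have h3 : 2 * (r + 1) * l * L ≤ 2 * (r + 1) * l * 1 := Nat.mul_le_mul_left _ hL2
    omega
  by_cases hA0 : A.card = 0
  · have hbasic := basic_bound hW hl hTW hTs N Λ h1 h1' (by omega)
    rw [← hLdef] at hbasic
    have hAe : A = ∅ := card_eq_zero.mp hA0
    have hLB : L = B.card := by rw [hsplit, hAe]; simp
    have hLle : L ≤ r + 1 := by omega
    have h4 := Nat.mul_le_mul_left (2 * r + 1) hbasic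
    have h5 := Nat.mul_le_mul_left l hLle
    nlinarith
  · have hne : A.Nonempty := card_pos.1 (by omega)
    obtain ⟨Dr, Ds, d1, d2, d3⟩ := packing_data hW hl hTW hTs N Λ h1 h2 A B hA hB hne
    rw [← hLdef] at d1 d3
    set LA := ∑ x ∈ A, (Λ x ∩ T).card with hLAdef
    have hApos : 1 ≤ A.card := by omega
    have key := arith_lin (q := (r : ℤ) + 1) (l := l) (R := A.card) (N := LA) (S := B.card)
      (E := (T.card : ℤ) - l * L) (Dr := Dr) (Ds := Ds) (by exact_mod_cast hApos)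
      (by exact_mod_cast hLA) (by positivity) (by exact_mod_cast (hABN.trans hNq))
      (by exact_mod_cast hl) (by positivity) (by positivity)
      (by
        have : ((l * L + Dr + Ds : ℕ) : ℤ) ≤ T.card := by exact_mod_cast d1
        push_cast at this
        linarith)
      (by
        have : ((Ds : ℕ) : ℤ) ≤ ((B.card * (l - 1) : ℕ) : ℤ) := by exact_mod_cast d2
        rw [Nat.cast_mul, Nat.cast_sub hl] at this
        exact_mod_cast this)
      (by
        have h5 : ((l * LA + A.card * (l * L) : ℕ) : ℤ) ≤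
          ((A.card * T.card + (A.card - 1) * (Dr + (LA - 1)) +
          A.card * (Ds + B.card) + (A.card - 1) * l : ℕ) : ℤ) := by exact_mod_cast d3
        have hLA1 : 1 ≤ LA := by omega
        push_cast [Nat.cast_sub hApos, Nat.cast_sub hLA1] at h5
        linarith)
    have h6 : (2 * (r + 1) * l * L : ℤ) ≤ (2 * r + 1) * T.card + 2 * (r + 1) * l + r * L := by
      have h7 : (L : ℤ) = LA + B.card := by exact_mod_cast hsplit
      rw [h7] at key ⊢
      linarith
    exact_mod_cast h6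

end

end Pool.Agent.H45.GF
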