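import Pool.Agent.H17.GM.CD
import Pool.Agent.H45.GF.Tree

/-!
# MP_f50317_co, girth 1, 2 mod 4: the two inequalities in the form used by `exists_TD` (helper45)
-/

set_option autoImplicit false
set_option linter.unusedSectionVars false
set_option linter.unusedVariables false

namespace Pool.Agent.H45.GF

open Finset Pool.Agent.H38

theorem tb {V : Type*} [DecidableEq V] (G : SimpleGraph V) {k l : ℕ} (hk : 2 ≤ k) (hl : 1 ≤ l)
    (hkl : 2 * (k - 1) * (k - 2) ≤ l) : Pool.Agent.H17.GM.TB G k l := by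
  intro W T hW hTW hTs N Λ h1 h2 hnum
  have h := tree_bound (G := G) hW hl hk hkl hTW hTs N Λ h1 h2 (by convert hnum)
  convert h

theorem arith_lb (q l L T : ℤ) (hq : 1 ≤ q) (hl : 2 * q * (q - 1) + 1 ≤ l) (hL : 0 ≤ L)
    (hT : 0 ≤ T) (h : 2 * q * l * L ≤ (2 * q - 1) * T + 2 * q * l + (q - 1) * L) :
    (2 * q * l) * ((2 * q + 1) * l) * L ≤ ((2 * q * l) * (2 * q) - 1) * T + 8 * q ^ 3 * l ^ 2 := by
  have hq1 : 0 ≤ q - 1 := by linarith
  have hqq : 0 ≤ 2 * q * (q - 1) := mul_nonneg (by linarith) hq1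
  have hl1 : 1 ≤ l := by linarith
  have hql : 1 ≤ q * l := by nlinarith
  have hc : 0 ≤ 4 * q ^ 2 * l - 1 := by nlinarith
  have h1 := mul_le_mul_of_nonneg_left h hc
  have hD : 0 ≤ (2 * (q * l) * (l - 2 * q * (q - 1) - 1) + (q - 1)) * L := by
    apply mul_nonneg _ hL
    have : 0 ≤ 2 * (q * l) * (l - 2 * q * (q - 1) - 1) :=
      mul_nonneg (by linarith) (by linarith)
    linarith
  have h2 : 0 ≤ (2 * q - 2) * (8 * q ^ 3 * l ^ 2) := by
    apply mul_nonneg (by linarith)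
    positivity
  have h3 : 0 ≤ 2 * (q * l) := by linarith
  have h4 : (2 * q - 1) * ((2 * q * l) * ((2 * q + 1) * l) * L) ≤
      (2 * q - 1) * (((2 * q * l) * (2 * q) - 1) * T + 8 * q ^ 3 * l ^ 2) := by
    nlinarith
  exact le_of_mul_le_mul_left h4 (by linarith)

theorem arith_lb_nat (k l L T : ℕ) (hk : 2 ≤ k) (hkl : 2 * (k - 1) * (k - 2) < l)
    (h : 2 * (k - 1) * l * L ≤ (2 * (k - 1) - 1) * T + 2 * (k - 1) * l + (k - 1 - 1) * L) :
    2 * (k - 1) * l * ((2 * k - 1) * l) * L ≤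
      (2 * (k - 1) * l * (2 * k - 2) - 1) * T + 8 * (k - 1) ^ 3 * l ^ 2 := by
  obtain ⟨r, rfl⟩ : ∃ r, k = r + 2 := ⟨k - 2, by omega⟩
  have e1 : r + 2 - 1 = r + 1 := by omega
  have e2 : 2 * (r + 2) - 1 = 2 * r + 3 := by omega
  have e3 : 2 * (r + 2) - 2 = 2 * r + 2 := by omega
  have e4 : 2 * (r + 1) - 1 = 2 * r + 1 := by omega
  have e5 : r + 2 - 2 = r := by omega
  rw [e1, e4, Nat.add_sub_cancel] at h
  rw [e1, e5] at hkl
  rw [e1, e2, e3]
  have h' : (2 * ((r : ℤ) + 1) * l * L : ℤ) ≤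
      (2 * r + 1) * T + 2 * (r + 1) * l + r * L := by exact_mod_cast h
  have hkl' : 2 * ((r : ℤ) + 1) * r + 1 ≤ l := by exact_mod_cast hkl
  have hl : 0 < l := by omega
  have key := arith_lb (q := (r : ℤ) + 1) (l := l) (L := L) (T := T) (by linarith)
    (by linarith) (by positivity) (by positivity) (by linarith)
  have hpos : 1 ≤ 2 * (r + 1) * l * (2 * r + 2) := by
    have : 0 < 2 * (r + 1) * l * (2 * r + 2) := by positivity
    omega
  have key2 : ((2 * (r + 1) * l * ((2 * r + 3) * l) * L : ℕ) : ℤ) ≤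
      (((2 * (r + 1) * l * (2 * r + 2) - 1) * T + 8 * (r + 1) ^ 3 * l ^ 2 : ℕ) : ℤ) := by
    push_cast [Nat.cast_sub hpos]
    linarith
  exact_mod_cast key2

theorem lb {V : Type*} [DecidableEq V] (G : SimpleGraph V) {k l : ℕ} (hk : 2 ≤ k) (hl : 1 ≤ l)
    (hkl : 2 * (k - 1) * (k - 2) < l) :
    Pool.Agent.H17.GM.LB G k l (2 * (k - 1) * l) (8 * (k - 1) ^ 3 * l ^ 2) := by
  intro W T hW hTW hTs A Λ hA h1 h2
  have h := linear_bound (G := G) hW hl (q := k - 1) (by omega) hTW hTs A hA Λ h1 h2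
  exact arith_lb_nat k l _ _ hk hkl h

end Pool.Agent.H45.GF
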