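import Pool.Agent.H45.GF.Root

/-!
# MP_f50317_co, girth 1, 2 mod 4: private paths and surplus sets (helper45)
-/

set_option autoImplicit false
set_option linter.unusedSectionVars false
set_option linter.unusedVariables false

namespace Pool.Agent.H45.GF

open Finset Pool.Agent.H38

section
variable {V : Type*} [DecidableEq V] {T : Finset V} {ρ : V} {par : V → V} {dep : V → ℕ}

/-- the vertex `z` is equal to or an ancestor of a label different from `w` -/
def Cov (Lb : Finset V) (par : V → V) (dep : V → ℕ) (w z : V) : Prop :=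
  ∃ u ∈ Lb, u ≠ w ∧ ∃ i ≤ dep u, par^[i] u = z

open scoped Classical in
/-- the steps above `w` which are also above another label -/
noncomputable def joint (Lb : Finset V) (par : V → V) (dep : V → ℕ) (l : ℕ) (w : V) : Finset ℕ :=
  (range l).filter (fun j => Cov Lb par dep w (par^[j] w))

/-- the vertices of the surplus set of `w` -/
def Sur (Lb : Finset V) (par : V → V) (dep : V → ℕ) (l : ℕ) (w z : V) : Prop :=
  ∃ u ∈ Lb, u ≠ w ∧ ∃ s i j, s < i ∧ i ≤ dep u ∧ j < l ∧ par^[i] u = par^[j] w ∧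
    (∀ j' < j, ¬ Cov Lb par dep w (par^[j'] w)) ∧ i + j + 1 ≤ s + l ∧ par^[s] u = z

/-- labels are far apart -/
def Far (Lb : Finset V) (par : V → V) (dep : V → ℕ) (l : ℕ) : Prop :=
  ∀ u ∈ Lb, ∀ w ∈ Lb, u ≠ w → ∀ i ≤ dep u, ∀ j ≤ dep w, par^[i] u = par^[j] w →
    2 * l ≤ i + j + 1

variable {Lb : Finset V} {l : ℕ}

theorem Far.dep_le (R : Rooted T ρ par dep) (hF : Far Lb par dep l) (hLT : Lb ⊆ T)
    (hρ : ρ ∈ Lb) {w : V} (hw : w ∈ Lb) (hwρ : w ≠ ρ) : 2 * l ≤ dep w + 1 := by
  have := hF ρ hρ w hw hwρ.symm 0 (Nat.zero_le _) (dep w) le_rfl (by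
    rw [R.iter_dep (hLT hw)]; rfl)
  omega

theorem mem_joint {w : V} {j : ℕ} :
    j ∈ joint Lb par dep l w ↔ j < l ∧ Cov Lb par dep w (par^[j] w) := by
  classical
  rw [joint, mem_filter, mem_range]

theorem Cov.up (R : Rooted T ρ par dep) (hLT : Lb ⊆ T) {w : V} (hw : w ∈ T) {j : ℕ}
    (hj : j + 1 ≤ dep w) (h : Cov Lb par dep w (par^[j] w)) :
    Cov Lb par dep w (par^[j + 1] w) := by
  obtain ⟨u, hu, huw, i, hi, he⟩ := h
  refine ⟨u, hu, huw, i + 1, ?_, Rooted.shift he 1⟩
  have h1 := R.dep_iter (hLT hu) hi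
  have h2 := R.dep_iter hw (i := j) (by omega)
  rw [he] at h1
  omega

theorem joint_eq_Ico (R : Rooted T ρ par dep) (hLT : Lb ⊆ T) {w : V} (hw : w ∈ T)
    (hdw : l ≤ dep w + 1) {j : ℕ} (hj : j < l) (hc : Cov Lb par dep w (par^[j] w))
    (hmin : ∀ j' < j, ¬ Cov Lb par dep w (par^[j'] w)) : joint Lb par dep l w = Ico j l := by
  ext a
  rw [mem_joint, mem_Ico]
  constructor
  · rintro ⟨h1, h2⟩
    refine ⟨?_, h1⟩
    by_contra hcon
    exact hmin a (by omega) h2
  · rintro ⟨h1, h2⟩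
    refine ⟨h2, ?_⟩
    obtain ⟨b, rfl⟩ : ∃ b, a = j + b := ⟨a - j, by omega⟩
    clear h1
    induction b with
    | zero => exact hc
    | succ b ih =>
      have h := Cov.up R hLT hw (j := j + b) (by omega) (ih (by omega))
      exact h

/-- the surplus set -/
theorem exists_surplus (R : Rooted T ρ par dep) (hF : Far Lb par dep l) (hLT : Lb ⊆ T)
    (hρ : ρ ∈ Lb) {w : V} (hw : w ∈ Lb) (hwρ : w ≠ ρ) :
    ∃ S ⊆ T, S.card = (joint Lb par dep l w).card - 1 ∧ ∀ z ∈ S, Sur Lb par dep l w z := by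
  classical
  have hdw := hF.dep_le R hLT hρ hw hwρ
  by_cases hne : (joint Lb par dep l w).Nonempty
  · obtain ⟨j, hj, hmin⟩ := exists_min_image _ (fun j => j) hne
    rw [mem_joint] at hj
    obtain ⟨hjl, hc⟩ := hj
    have hmin' : ∀ j' < j, ¬ Cov Lb par dep w (par^[j'] w) := by
      intro j' hj' hc'
      have := hmin j' (mem_joint.2 ⟨by omega, hc'⟩)
      omega
    have hJ := joint_eq_Ico R hLT (hLT hw) (by omega) hjl hc hmin'
    obtain ⟨u, hu, huw, i, hi, he⟩ := hc
    have hij := hF u hu w hw huw i hi j (by omega) he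
    refine ⟨seg par u (Ico (i + j + 1 - l) i), ?_, ?_, ?_⟩
    · apply R.seg_subset (hLT hu)
      intro s hs
      rw [mem_Ico] at hs
      omega
    · rw [R.card_seg (hLT hu), hJ, Nat.card_Ico, Nat.card_Ico]
      · omega
      · intro s hs
        rw [mem_Ico] at hs
        omega
    · intro z hz
      rw [mem_seg] at hz
      obtain ⟨s, hs, hz⟩ := hz
      rw [mem_Ico] at hs
      exact ⟨u, hu, huw, s, i, j, hs.2, hi, hjl, he, hmin', by omega, hz⟩
  · refine ⟨∅, by simp, ?_, by simp⟩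
    rw [not_nonempty_iff_eq_empty] at hne
    rw [hne]
    rfl

/-- private paths are disjoint -/
theorem seg_disjoint (hF : Far Lb par dep l) {u w : V} (hu : u ∈ Lb) (hw : w ∈ Lb) (huw : u ≠ w)
    (hdu : l ≤ dep u + 1) (hdw : l ≤ dep w + 1) :
    Disjoint (seg par u (range l)) (seg par w (range l)) := by
  rw [disjoint_left]
  intro z hz hz'
  rw [mem_seg] at hz hz'
  obtain ⟨i, hi, hzi⟩ := hz
  obtain ⟨j, hj, hzj⟩ := hz'
  rw [mem_range] at hi hj
  have := hF u hu w hw huw i (by omega) j (by omega) (hzi.trans hzj.symm)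
  omega

/-- surplus sets do not meet private paths -/
theorem sur_not_mem (R : Rooted T ρ par dep) (hF : Far Lb par dep l) (hLT : Lb ⊆ T)
    (hρ : ρ ∈ Lb) {w x z : V} (hw : w ∈ Lb) (hwρ : w ≠ ρ) (hx : x ∈ Lb) (hxρ : x ≠ ρ)
    (h : Sur Lb par dep l w z) : z ∉ seg par x (range l) := by
  intro hz
  rw [mem_seg] at hz
  obtain ⟨a, ha, hza⟩ := hz
  rw [mem_range] at ha
  obtain ⟨u, hu, huw, s, i, j, hsi, hi, hjl, he, hmin, hsl, hs⟩ := h
  have hdw := hF.dep_le R hLT hρ hw hwρ
  have hdx := hF.dep_le R hLT hρ hx hxρ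
  have hij := hF u hu w hw huw i hi j (by omega) he
  have hsa : par^[s] u = par^[a] x := hs.trans hza.symm
  by_cases hxu : x = u
  · subst hxu
    have := R.iter_inj (hLT hx) (by omega) (by omega) hsa
    omega
  · have h1 := hF u hu x hx (Ne.symm hxu) s (by omega) a (by omega) hsa
    have hup := Rooted.shift hsa (i - s)
    rw [show s + (i - s) = i by omega, he] at hup
    have hdep1 := R.dep_iter (hLT hu) hi
    have hdep2 := R.dep_iter (hLT hu) (i := s) (by omega)
    have hdep3 := R.dep_iter (hLT hx) (i := a) (by omega)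
    rw [hsa] at hdep2
    by_cases hxw : x = w
    · subst hxw
      have h2 := R.iter_inj (hLT hx) (i := j) (j := a + (i - s)) (by omega) (by omega) hup
      apply hmin a (by omega)
      exact ⟨u, hu, huw, s, by omega, hsa⟩
    · have h2 := hF w hw x hx (Ne.symm hxw) j (by omega) (a + (i - s)) (by omega) hup
      omega

/-- surplus sets have depth at least `l` -/
theorem sur_dep (R : Rooted T ρ par dep) (hF : Far Lb par dep l) (hLT : Lb ⊆ T)
    (hρ : ρ ∈ Lb) {w z : V} (hw : w ∈ Lb) (hwρ : w ≠ ρ) (h : Sur Lb par dep l w z) :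
    l ≤ dep z := by
  obtain ⟨u, hu, huw, s, i, j, hsi, hi, hjl, he, hmin, hsl, hs⟩ := h
  have hdw := hF.dep_le R hLT hρ hw hwρ
  have h1 := R.dep_iter (hLT hu) hi
  have h2 := R.dep_iter (hLT hu) (i := s) (by omega)
  have h3 := R.dep_iter (hLT hw) (i := j) (by omega)
  rw [he] at h1
  rw [hs] at h2
  omega

/-- surplus sets are disjoint -/
theorem sur_disjoint (R : Rooted T ρ par dep) (hF : Far Lb par dep l) (hLT : Lb ⊆ T)
    (hρ : ρ ∈ Lb) {w w' z : V} (hw : w ∈ Lb) (hwρ : w ≠ ρ) (hw' : w' ∈ Lb) (hwρ' : w' ≠ ρ)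
    (hww : w ≠ w') (h : Sur Lb par dep l w z) (h' : Sur Lb par dep l w' z) : False := by
  obtain ⟨u, hu, huw, s, i, j, hsi, hi, hjl, he, hmin, hsl, hs⟩ := h
  obtain ⟨u', hu', huw', s', i', j', hsi', hi', hjl', he', hmin', hsl', hs'⟩ := h'
  have hdw := hF.dep_le R hLT hρ hw hwρ
  have hdw' := hF.dep_le R hLT hρ hw' hwρ'
  have hss : par^[s] u = par^[s'] u' := hs.trans hs'.symm
  have h1 := R.dep_iter (hLT hu) hi
  have h2 := R.dep_iter (hLT hu) (i := s) (by omega)
  have h3 := R.dep_iter (hLT hw) (i := j) (by omega)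
  have h1' := R.dep_iter (hLT hu') hi'
  have h2' := R.dep_iter (hLT hu') (i := s') (by omega)
  have h3' := R.dep_iter (hLT hw') (i := j') (by omega)
  rw [he] at h1
  rw [he'] at h1'
  rw [hss] at h2
  rcases le_total (i - s) (i' - s') with hle | hle
  · have h4 := Rooted.shift hss (i - s)
    rw [show s + (i - s) = i by omega, he] at h4
    have h5 := Rooted.shift h4 ((i' - s') - (i - s))
    rw [show s' + (i - s) + ((i' - s') - (i - s)) = i' by omega, he'] at h5
    have h6 := hF w hw w' hw' hww (j + ((i' - s') - (i - s))) (by omega) j' (by omega) h5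
    omega
  · have h4 := Rooted.shift hss.symm (i' - s')
    rw [show s' + (i' - s') = i' by omega, he'] at h4
    have h5 := Rooted.shift h4 ((i - s) - (i' - s'))
    rw [show s + (i' - s') + ((i - s) - (i' - s')) = i by omega, he] at h5
    have h6 := hF w' hw' w hw (Ne.symm hww) (j' + ((i - s) - (i' - s'))) (by omega) j (by omega) h5
    omega

/-- the private path of the root, on the way to the label `w` -/
theorem root_seg_dep (R : Rooted T ρ par dep) {w : V} (hw : w ∈ T)
    (hd : l ≤ dep w + 1) {z : V} (hz : z ∈ seg par w (Ico (dep w + 1 - l) (dep w + 1))) :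
    dep z < l := by
  rw [mem_seg] at hz
  obtain ⟨s, hs, rfl⟩ := hz
  rw [mem_Ico] at hs
  have := R.dep_iter hw (i := s) (by omega)
  omega

theorem seg_dep (R : Rooted T ρ par dep) {x : V} (hx : x ∈ T) (hd : 2 * l ≤ dep x + 1)
    {z : V} (hz : z ∈ seg par x (range l)) : l ≤ dep z := by
  rw [mem_seg] at hz
  obtain ⟨s, hs, rfl⟩ := hz
  rw [mem_range] at hs
  have := R.dep_iter hx (i := s) (by omega)
  omega

open scoped Classical in
/-- private paths -/
noncomputable def priv (par : V → V) (dep : V → ℕ) (l : ℕ) (ρ w0 x : V) : Finset V :=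
  if x = ρ then seg par w0 (Ico (dep w0 + 1 - l) (dep w0 + 1)) else seg par x (range l)

theorem priv_subset (R : Rooted T ρ par dep) (hF : Far Lb par dep l) (hLT : Lb ⊆ T)
    (hρ : ρ ∈ Lb) {w0 : V} (hw0 : w0 ∈ Lb) {x : V} (hx : x ∈ Lb) :
    priv par dep l ρ w0 x ⊆ T := by
  unfold priv
  split_ifs with h
  · apply R.seg_subset (hLT hw0)
    intro s hs
    rw [mem_Ico] at hs
    omega
  · apply R.seg_subset (hLT hx)
    intro s hs
    rw [mem_range] at hs
    have := hF.dep_le R hLT hρ hx h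
    omega

theorem priv_card (R : Rooted T ρ par dep) (hF : Far Lb par dep l) (hLT : Lb ⊆ T)
    (hρ : ρ ∈ Lb) {w0 : V} (hw0 : w0 ∈ Lb) (hwρ : w0 ≠ ρ) {x : V} (hx : x ∈ Lb) :
    (priv par dep l ρ w0 x).card = l := by
  have hd0 := hF.dep_le R hLT hρ hw0 hwρ
  unfold priv
  split_ifs with h
  · rw [R.card_seg (hLT hw0), Nat.card_Ico]
    · omega
    · intro s hs
      rw [mem_Ico] at hs
      omega
  · rw [R.card_seg (hLT hx), card_range]
    intro s hs
    rw [mem_range] at hs
    have := hF.dep_le R hLT hρ hx h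
    omega

theorem priv_disjoint (R : Rooted T ρ par dep) (hF : Far Lb par dep l) (hLT : Lb ⊆ T)
    (hρ : ρ ∈ Lb) {w0 : V} (hw0 : w0 ∈ Lb) (hwρ : w0 ≠ ρ) {x y : V} (hx : x ∈ Lb) (hy : y ∈ Lb)
    (hxy : x ≠ y) : Disjoint (priv par dep l ρ w0 x) (priv par dep l ρ w0 y) := by
  have hd0 := hF.dep_le R hLT hρ hw0 hwρ
  unfold priv
  split_ifs with h1 h2 h2
  · exact absurd (h1.trans h2.symm) hxy
  · rw [disjoint_left]
    intro z hz hz'
    have h3 := root_seg_dep R (hLT hw0) (by omega) hz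
    have h4 := seg_dep R (hLT hy) (hF.dep_le R hLT hρ hy h2) hz'
    omega
  · rw [disjoint_left]
    intro z hz hz'
    have h3 := root_seg_dep R (hLT hw0) (by omega) hz'
    have h4 := seg_dep R (hLT hx) (hF.dep_le R hLT hρ hx h1) hz
    omega
  · have h3 := hF.dep_le R hLT hρ hx h1
    have h4 := hF.dep_le R hLT hρ hy h2
    exact seg_disjoint hF hx hy hxy (by omega) (by omega)

/-- first counting inequality: private paths and surplus sets are disjoint -/
theorem count_one (R : Rooted T ρ par dep) (hF : Far Lb par dep l) (hLT : Lb ⊆ T)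
    (hρ : ρ ∈ Lb) {w0 : V} (hw0 : w0 ∈ Lb) (hwρ : w0 ≠ ρ) :
    l * Lb.card + ∑ w ∈ Lb.erase ρ, ((joint Lb par dep l w).card - 1) ≤ T.card := by
  classical
  have hd0 := hF.dep_le R hLT hρ hw0 hwρ
  have hex : ∀ w, ∃ S : Finset V, w ∈ Lb.erase ρ → (S ⊆ T ∧
      S.card = (joint Lb par dep l w).card - 1 ∧ ∀ z ∈ S, Sur Lb par dep l w z) := by
    intro w
    by_cases hw : w ∈ Lb.erase ρ
    · obtain ⟨S, h1, h2, h3⟩ := exists_surplus R hF hLT hρ (mem_of_mem_erase hw) (ne_of_mem_erase hw)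
      exact ⟨S, fun _ => ⟨h1, h2, h3⟩⟩
    · exact ⟨∅, fun h => absurd h hw⟩
  choose S hS using hex
  have hP : (Lb.biUnion (priv par dep l ρ w0)).card = l * Lb.card := by
    rw [card_biUnion]
    · rw [sum_congr rfl (fun x hx => priv_card R hF hLT hρ hw0 hwρ hx), sum_const, smul_eq_mul,
        mul_comm]
    · intro x hx y hy hxy
      exact priv_disjoint R hF hLT hρ hw0 hwρ hx hy hxy
  have hSc : ((Lb.erase ρ).biUnion S).card =
      ∑ w ∈ Lb.erase ρ, ((joint Lb par dep l w).card - 1) := by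
    rw [card_biUnion]
    · exact sum_congr rfl (fun x hx => (hS x hx).2.1)
    · intro x hx y hy hxy
      rw [Function.onFun, disjoint_left]
      intro z hz hz'
      exact sur_disjoint R hF hLT hρ (mem_of_mem_erase hx) (ne_of_mem_erase hx)
        (mem_of_mem_erase hy) (ne_of_mem_erase hy) hxy ((hS x hx).2.2 z hz) ((hS y hy).2.2 z hz')
  have hdis : Disjoint (Lb.biUnion (priv par dep l ρ w0)) ((Lb.erase ρ).biUnion S) := by
    rw [disjoint_left]
    intro z hz hz'
    rw [mem_biUnion] at hz hz'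
    obtain ⟨x, hx, hzx⟩ := hz
    obtain ⟨w, hw, hzw⟩ := hz'
    have h1 := (hS w hw).2.2 z hzw
    unfold priv at hzx
    split_ifs at hzx with h
    · have h2 := root_seg_dep R (hLT hw0) (by omega) hzx
      have h3 := sur_dep R hF hLT hρ (mem_of_mem_erase hw) (ne_of_mem_erase hw) h1
      omega
    · exact sur_not_mem R hF hLT hρ (mem_of_mem_erase hw) (ne_of_mem_erase hw) hx h h1 hzx
  rw [← hP, ← hSc, ← card_union_of_disjoint hdis]
  apply card_le_card
  apply union_subset
  · rw [biUnion_subset]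
    intro x hx
    exact priv_subset R hF hLT hρ hw0 hx
  · rw [biUnion_subset]
    intro x hx
    exact (hS x hx).1

end

end Pool.Agent.H45.GF
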