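import Pool.Agent.H45.GF.CoreA

/-!
# MP_f50317_co, girth 1, 2 mod 4: second counting inequality (helper45)
-/

set_option autoImplicit false
set_option linter.unusedSectionVars false
set_option linter.unusedVariables false

namespace Pool.Agent.H45.GF

open Finset Pool.Agent.H38

section
variable {V : Type*} [DecidableEq V] {T : Finset V} {ρ : V} {par : V → V} {dep : V → ℕ}
  {Lb C : Finset V} {l : ℕ}

/-- equal labels are very far apart -/
def Far2 (C : Finset V) (par : V → V) (dep : V → ℕ) (l : ℕ) : Prop :=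
  ∀ u ∈ C, ∀ w ∈ C, u ≠ w → ∀ i ≤ dep u, ∀ j ≤ dep w, par^[i] u = par^[j] w →
    4 * l ≤ i + j + 1

theorem Far2.dep_le (R : Rooted T ρ par dep) (hF : Far2 C par dep l) (hCT : C ⊆ T)
    (hρ : ρ ∈ C) {w : V} (hw : w ∈ C) (hwρ : w ≠ ρ) : 4 * l ≤ dep w + 1 := by
  have := hF ρ hρ w hw hwρ.symm 0 (Nat.zero_le _) (dep w) le_rfl (by
    rw [R.iter_dep (hCT hw)]; rfl)
  omega

open scoped Classical in
/-- the second segment of the path above a label -/
noncomputable def zone (par : V → V) (dep : V → ℕ) (l : ℕ) (ρ v0 x : V) : Finset V :=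
  if x = ρ then seg par v0 (Ico (dep v0 + 1 - 2 * l) (dep v0 + 1 - l))
  else seg par x (Ico l (2 * l))

theorem mem_zone (R : Rooted T ρ par dep) (hF : Far Lb par dep l) (hLT : Lb ⊆ T)
    (hρ : ρ ∈ Lb) (hCL : C ⊆ Lb) {v0 : V} (hv0 : v0 ∈ C) {x : V} (hx : x ∈ C) {z : V}
    (hz : z ∈ zone par dep l ρ v0 x) : ∃ v ∈ C, ∃ i ≤ dep v, par^[i] v = z := by
  unfold zone at hz
  split_ifs at hz with h
  · rw [mem_seg] at hz
    obtain ⟨s, hs, hz⟩ := hz
    rw [mem_Ico] at hs
    exact ⟨v0, hv0, s, by omega, hz⟩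
  · rw [mem_seg] at hz
    obtain ⟨s, hs, hz⟩ := hz
    rw [mem_Ico] at hs
    have := hF.dep_le R hLT hρ (hCL hx) h
    exact ⟨x, hx, s, by omega, hz⟩

theorem zone_subset (R : Rooted T ρ par dep) (hF : Far Lb par dep l) (hLT : Lb ⊆ T)
    (hρ : ρ ∈ Lb) (hCL : C ⊆ Lb) {v0 : V} (hv0 : v0 ∈ C) {x : V} (hx : x ∈ C) :
    zone par dep l ρ v0 x ⊆ T := by
  intro z hz
  obtain ⟨v, hv, i, hi, rfl⟩ := mem_zone R hF hLT hρ hCL hv0 hx hz
  exact R.iter_mem (hLT (hCL hv)) hi

theorem zone_card (R : Rooted T ρ par dep) (hF : Far Lb par dep l) (hLT : Lb ⊆ T)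
    (hρ : ρ ∈ Lb) (hCL : C ⊆ Lb) {v0 : V} (hv0 : v0 ∈ C) (hvρ : v0 ≠ ρ) {x : V} (hx : x ∈ C) :
    (zone par dep l ρ v0 x).card = l := by
  have hd0 := hF.dep_le R hLT hρ (hCL hv0) hvρ
  unfold zone
  split_ifs with h
  · rw [R.card_seg (hLT (hCL hv0)), Nat.card_Ico]
    · omega
    · intro s hs
      rw [mem_Ico] at hs
      omega
  · rw [R.card_seg (hLT (hCL hx)), Nat.card_Ico]
    · omega
    · intro s hs
      rw [mem_Ico] at hs
      have := hF.dep_le R hLT hρ (hCL hx) h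
      omega

theorem zone_root_dep (R : Rooted T ρ par dep) (hF : Far Lb par dep l) (hLT : Lb ⊆ T)
    (hρ : ρ ∈ Lb) (hCL : C ⊆ Lb) {v0 : V} (hv0 : v0 ∈ C) (hvρ : v0 ≠ ρ) {z : V}
    (hz : z ∈ zone par dep l ρ v0 ρ) : l ≤ dep z ∧ dep z < 2 * l := by
  have hd0 := hF.dep_le R hLT hρ (hCL hv0) hvρ
  unfold zone at hz
  rw [if_pos rfl, mem_seg] at hz
  obtain ⟨s, hs, rfl⟩ := hz
  rw [mem_Ico] at hs
  have := R.dep_iter (hLT (hCL hv0)) (i := s) (by omega)
  omega

theorem zone_dep (R : Rooted T ρ par dep) (hF : Far Lb par dep l) (hF2 : Far2 C par dep l)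
    (hLT : Lb ⊆ T) (hρ : ρ ∈ Lb) (hCL : C ⊆ Lb) {v0 x : V} (hx : x ∈ C) (hxρ : x ≠ ρ)
    (hρC : ρ ∈ C) {z : V} (hz : z ∈ zone par dep l ρ v0 x) : 2 * l ≤ dep z := by
  have hd := hF2.dep_le R (hCL.trans hLT) hρC hx hxρ
  unfold zone at hz
  rw [if_neg hxρ, mem_seg] at hz
  obtain ⟨s, hs, rfl⟩ := hz
  rw [mem_Ico] at hs
  have := R.dep_iter (hLT (hCL hx)) (i := s) (by omega)
  omega

theorem zone_disjoint (R : Rooted T ρ par dep) (hF : Far Lb par dep l) (hF2 : Far2 C par dep l)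
    (hLT : Lb ⊆ T) (hρ : ρ ∈ Lb) (hCL : C ⊆ Lb) {v0 : V} (hv0 : v0 ∈ C) (hvρ : v0 ≠ ρ)
    {x y : V} (hx : x ∈ C) (hy : y ∈ C) (hxy : x ≠ y) :
    Disjoint (zone par dep l ρ v0 x) (zone par dep l ρ v0 y) := by
  rw [disjoint_left]
  intro z hz hz'
  by_cases h1 : x = ρ
  · subst h1
    have h3 := zone_root_dep R hF hLT hρ hCL hv0 hvρ hz
    have h4 := zone_dep R hF hF2 hLT hρ hCL hy hxy.symm hx hz'
    omega
  · by_cases h2 : y = ρ
    · subst h2
      have h3 := zone_root_dep R hF hLT hρ hCL hv0 hvρ hz'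
      have h4 := zone_dep R hF hF2 hLT hρ hCL hx hxy hy hz
      omega
    · unfold zone at hz hz'
      rw [if_neg h1, mem_seg] at hz
      rw [if_neg h2, mem_seg] at hz'
      obtain ⟨i, hi, hzi⟩ := hz
      obtain ⟨j, hj, hzj⟩ := hz'
      rw [mem_Ico] at hi hj
      have hdx := hF.dep_le R hLT hρ (hCL hx) h1
      have hdy := hF.dep_le R hLT hρ (hCL hy) h2
      have := hF2 x hx y hy hxy i (by omega) j (by omega) (hzi.trans hzj.symm)
      omega

/-- zones of a class do not meet private paths of the class -/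
theorem zone_priv (R : Rooted T ρ par dep) (hF : Far Lb par dep l) (hF2 : Far2 C par dep l)
    (hLT : Lb ⊆ T) (hρ : ρ ∈ Lb) (hCL : C ⊆ Lb) {w0 v0 : V} (hw0 : w0 ∈ Lb) (hw0ρ : w0 ≠ ρ)
    (hv0 : v0 ∈ C) (hvρ : v0 ≠ ρ) {x y : V} (hx : x ∈ C) (hy : y ∈ C) :
    Disjoint (zone par dep l ρ v0 x) (priv par dep l ρ w0 y) := by
  rw [disjoint_left]
  intro z hz hz'
  have hd0 := hF.dep_le R hLT hρ hw0 hw0ρ
  by_cases h2 : y = ρ
  · subst h2
    unfold priv at hz'
    rw [if_pos rfl] at hz'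
    have h4 := root_seg_dep R (hLT hw0) (by omega) hz'
    by_cases h1 : x = y
    · subst h1
      have h3 := zone_root_dep R hF hLT hρ hCL hv0 hvρ hz
      omega
    · have h3 := zone_dep R hF hF2 hLT hρ hCL hx h1 hy hz
      omega
  · unfold priv at hz'
    rw [if_neg h2, mem_seg] at hz'
    obtain ⟨j, hj, hzj⟩ := hz'
    rw [mem_range] at hj
    have hdy := hF.dep_le R hLT hρ (hCL hy) h2
    by_cases h1 : x = ρ
    · subst h1
      have h3 := zone_root_dep R hF hLT hρ hCL hv0 hvρ hz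
      have h4 := hF2.dep_le R (hCL.trans hLT) hx hy h2
      have h5 := R.dep_iter (hLT (hCL hy)) (i := j) (by omega)
      rw [hzj] at h5
      omega
    · unfold zone at hz
      rw [if_neg h1, mem_seg] at hz
      obtain ⟨i, hi, hzi⟩ := hz
      rw [mem_Ico] at hi
      have hdx := hF.dep_le R hLT hρ (hCL hx) h1
      by_cases hxy : x = y
      · subst hxy
        have := R.iter_inj (hLT (hCL hx)) (i := i) (j := j) (by omega) (by omega)
          (hzi.trans hzj.symm)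
        omega
      · have := hF2 x hx y hy hxy i (by omega) j (by omega) (hzi.trans hzj.symm)
        omega

open scoped Classical in
/-- second counting inequality -/
theorem count_two (R : Rooted T ρ par dep) (hF : Far Lb par dep l) (hF2 : Far2 C par dep l)
    (hLT : Lb ⊆ T) (hρ : ρ ∈ Lb) (hCL : C ⊆ Lb) (hC : 2 ≤ C.card) :
    l * C.card + l * Lb.card ≤
      T.card + ∑ w ∈ (Lb \ C).erase ρ, (joint Lb par dep l w).card + (if ρ ∈ C then 0 else l) := by
  obtain ⟨v0, hv0, hvρ⟩ : ∃ v0 ∈ C, v0 ≠ ρ := by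
    by_contra hcon
    push Not at hcon
    have : C ⊆ {ρ} := fun v hv => by rw [mem_singleton]; exact hcon v hv
    have := card_le_card this
    rw [card_singleton] at this
    omega
  have hw0 := hCL hv0
  set P := Lb.biUnion (priv par dep l ρ v0) with hPdef
  set U := C.biUnion (zone par dep l ρ v0) with hUdef
  have hP : P.card = l * Lb.card := by
    rw [hPdef, card_biUnion]
    · rw [sum_congr rfl (fun x hx => priv_card R hF hLT hρ hw0 hvρ hx), sum_const, smul_eq_mul,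
        mul_comm]
    · intro x hx y hy hxy
      exact priv_disjoint R hF hLT hρ hw0 hvρ hx hy hxy
  have hPT : P ⊆ T := by
    rw [hPdef, biUnion_subset]
    intro x hx
    exact priv_subset R hF hLT hρ hw0 hx
  have hU : U.card = l * C.card := by
    rw [hUdef, card_biUnion]
    · rw [sum_congr rfl (fun x hx => zone_card R hF hLT hρ hCL hv0 hvρ hx), sum_const, smul_eq_mul,
        mul_comm]
    · intro x hx y hy hxy
      exact zone_disjoint R hF hF2 hLT hρ hCL hv0 hvρ hx hy hxy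
  have hUT : U ⊆ T := by
    rw [hUdef, biUnion_subset]
    intro x hx
    exact zone_subset R hF hLT hρ hCL hv0 hx
  have hcov : U ⊆ (T \ P) ∪ (Lb \ C).biUnion (fun w => U ∩ priv par dep l ρ v0 w) := by
    intro z hz
    by_cases hzP : z ∈ P
    · apply mem_union_right
      have hzP' := hzP
      rw [hPdef, mem_biUnion] at hzP'
      obtain ⟨w, hw, hzw⟩ := hzP'
      rw [mem_biUnion]
      refine ⟨w, ?_, mem_inter.2 ⟨hz, hzw⟩⟩
      rw [mem_sdiff]
      refine ⟨hw, fun hwC => ?_⟩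
      have hz' := hz
      rw [hUdef, mem_biUnion] at hz'
      obtain ⟨x, hx, hzx⟩ := hz'
      exact (disjoint_left.1 (zone_priv R hF hF2 hLT hρ hCL hw0 hvρ hv0 hvρ hx hwC)) hzx hzw
    · exact mem_union_left _ (mem_sdiff.2 ⟨hUT hz, hzP⟩)
  have h1 : U.card ≤ (T.card - P.card) +
      ∑ w ∈ Lb \ C, (U ∩ priv par dep l ρ v0 w).card := by
    refine (card_le_card hcov).trans ((card_union_le _ _).trans ?_)
    rw [card_sdiff_of_subset hPT]
    exact Nat.add_le_add_left card_biUnion_le _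
  have h2 : ∀ w ∈ (Lb \ C).erase ρ,
      (U ∩ priv par dep l ρ v0 w).card ≤ (joint Lb par dep l w).card := by
    intro w hw
    rw [mem_erase, mem_sdiff] at hw
    obtain ⟨hwρ, hwL, hwC⟩ := hw
    have hdw := hF.dep_le R hLT hρ hwL hwρ
    have hsub : U ∩ priv par dep l ρ v0 w ⊆ seg par w (joint Lb par dep l w) := by
      intro z hz
      rw [mem_inter] at hz
      obtain ⟨hzU, hzw⟩ := hz
      unfold priv at hzw
      rw [if_neg hwρ, mem_seg] at hzw
      obtain ⟨j, hj, hzj⟩ := hzw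
      rw [mem_range] at hj
      rw [hUdef, mem_biUnion] at hzU
      obtain ⟨x, hx, hzx⟩ := hzU
      obtain ⟨v, hv, i, hi, hzi⟩ := mem_zone R hF hLT hρ hCL hv0 hx hzx
      rw [mem_seg]
      refine ⟨j, mem_joint.2 ⟨hj, v, hCL hv, ?_, i, hi, hzi.trans hzj.symm⟩, hzj⟩
      rintro rfl
      exact hwC hv
    refine (card_le_card hsub).trans ?_
    unfold seg
    exact card_image_le
  have h3 : ∑ w ∈ Lb \ C, (U ∩ priv par dep l ρ v0 w).card ≤
      ∑ w ∈ (Lb \ C).erase ρ, (joint Lb par dep l w).card + (if ρ ∈ C then 0 else l) := by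
    by_cases hρC : ρ ∈ C
    · rw [if_pos hρC, add_zero]
      have h4 : (Lb \ C).erase ρ = Lb \ C := by
        apply erase_eq_of_notMem
        simp [hρC]
      rw [h4] at h2 ⊢
      exact sum_le_sum h2
    · rw [if_neg hρC]
      have h4 : ρ ∈ Lb \ C := mem_sdiff.2 ⟨hρ, hρC⟩
      rw [← sum_erase_add _ _ h4]
      apply Nat.add_le_add (sum_le_sum h2)
      refine (card_le_card inter_subset_right).trans ?_
      rw [priv_card R hF hLT hρ hw0 hvρ hρ]
  have h5 := card_le_card hPT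
  rw [hU, hP] at h1
  rw [hP] at h5
  omega

end

end Pool.Agent.H45.GF
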