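import Pool.Agent.H45.GF.CoreB

/-!
# MP_f50317_co, girth 1, 2 mod 4: summation over the repeated names (helper45)
-/

set_option autoImplicit false
set_option linter.unusedSectionVars false
set_option linter.unusedVariables false

namespace Pool.Agent.H45.GF

open Finset Pool.Agent.H38

section
variable {V : Type*} [DecidableEq V] {G : SimpleGraph V}

theorem classes_disjoint {ι : Type*} {W T : Finset V} (hW : Sparse G W) {l : ℕ} (hl : 1 ≤ l)
    (hTW : T ⊆ W) (N : Finset ι) (Λ : ι → Finset V)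
    (h1 : ∀ x ∈ N, ∀ y ∈ N, x ≠ y → ∀ p ∈ Λ x, ∀ q ∈ Λ y, p ∈ T → q ∈ T →
      2 * l ≤ dd G W p q + 1) {x y : ι} (hx : x ∈ N) (hy : y ∈ N) (hxy : x ≠ y) :
    Disjoint (Λ x ∩ T) (Λ y ∩ T) := by
  rw [disjoint_left]
  intro p hp hp'
  rw [mem_inter] at hp hp'
  have := h1 x hx y hy hxy p hp.1 p hp'.1 hp.2 hp.2
  rw [dd_self (hTW hp.2)] at this
  omega

open scoped Classical in
/-- the numerical data of the packing lemma -/
theorem packing_data {ι : Type*} {W T : Finset V} (hW : Sparse G W) {l : ℕ} (hl : 1 ≤ l)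
    (hTW : T ⊆ W) (hTs : IsSub G T) (N : Finset ι) (Λ : ι → Finset V)
    (h1 : ∀ x ∈ N, ∀ y ∈ N, x ≠ y → ∀ p ∈ Λ x, ∀ q ∈ Λ y, p ∈ T → q ∈ T →
      2 * l ≤ dd G W p q + 1)
    (h2 : ∀ x ∈ N, ∀ p ∈ Λ x, ∀ q ∈ Λ x, p ≠ q → p ∈ T → q ∈ T → 4 * l ≤ dd G W p q + 1)
    (A B : Finset ι) (hA : A = N.filter (fun x => 2 ≤ (Λ x ∩ T).card))
    (hB : B = N.filter (fun x => (Λ x ∩ T).card = 1)) (hne : A.Nonempty) :
    ∃ Dr Ds : ℕ, l * (∑ x ∈ N, (Λ x ∩ T).card) + Dr + Ds ≤ T.card ∧ Ds ≤ B.card * (l - 1) ∧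
      l * (∑ x ∈ A, (Λ x ∩ T).card) + A.card * (l * (∑ x ∈ N, (Λ x ∩ T).card)) ≤
        A.card * T.card + (A.card - 1) * (Dr + ((∑ x ∈ A, (Λ x ∩ T).card) - 1)) +
          A.card * (Ds + B.card) + (A.card - 1) * l := by
  obtain ⟨x0, hx0⟩ := hne
  have hx0' := hx0
  rw [hA, mem_filter] at hx0'
  obtain ⟨hx0N, hx0c⟩ := hx0'
  obtain ⟨ρ, hρ⟩ := card_pos.1 (show 0 < (Λ x0 ∩ T).card by omega)
  have hρT : ρ ∈ T := (mem_inter.1 hρ).2
  obtain ⟨par, dep, R, hadj⟩ := exists_rooted (ρ := ρ) hW T.card T rfl hTW hTs hρT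
  set C : ι → Finset V := fun x => Λ x ∩ T with hC
  set Lb := N.biUnion C with hLb
  have hAN : A ⊆ N := by rw [hA]; exact filter_subset _ _
  have hBN : B ⊆ N := by rw [hB]; exact filter_subset _ _
  have hAB : Disjoint A B := by
    rw [disjoint_left]
    intro x hx hx'
    rw [hA, mem_filter] at hx
    rw [hB, mem_filter] at hx'
    omega
  have hdisj : ∀ x ∈ N, ∀ y ∈ N, x ≠ y → Disjoint (C x) (C y) :=
    fun x hx y hy hxy => classes_disjoint hW hl hTW N Λ h1 hx hy hxy
  have hLT : Lb ⊆ T := by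
    rw [hLb, biUnion_subset]
    intro x _
    exact inter_subset_right
  have hCL : ∀ x ∈ N, C x ⊆ Lb := fun x hx => subset_biUnion_of_mem C hx
  have hρL : ρ ∈ Lb := hCL x0 hx0N hρ
  have hF2 : ∀ x ∈ N, Far2 (C x) par dep l := by
    intro x hx u hu w hw huw i hi j hj he
    rw [hC, mem_inter] at hu hw
    have h3 := h2 x hx u hu.1 w hw.1 huw hu.2 hw.2
    have h4 := R.dd_le hW hTW hadj hu.2 hw.2 hi hj he
    omega
  have hF : Far Lb par dep l := by
    intro u hu w hw huw i hi j hj he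
    rw [hLb, mem_biUnion] at hu hw
    obtain ⟨x, hx, hu⟩ := hu
    obtain ⟨y, hy, hw⟩ := hw
    by_cases hxy : x = y
    · subst hxy
      have := hF2 x hx u hu w hw huw i hi j hj he
      omega
    · rw [hC, mem_inter] at hu hw
      have h3 := h1 x hx y hy hxy u hu.1 w hw.1 hu.2 hw.2
      have h4 := R.dd_le hW hTW hadj hu.2 hw.2 hi hj he
      omega
  -- second label
  obtain ⟨w0, hw0, hw0ρ⟩ : ∃ w0 ∈ C x0, w0 ≠ ρ := by
    by_contra hcon
    push Not at hcon
    have : C x0 ⊆ {ρ} := fun v hv => by rw [mem_singleton]; exact hcon v hv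
    have := card_le_card this
    rw [card_singleton] at this
    have hx0c' : 2 ≤ (C x0).card := hx0c
    omega
  set t : V → ℕ := fun w => (joint Lb par dep l w).card with ht
  set RA := A.biUnion C with hRA
  set SB := B.biUnion C with hSB
  have hRAL : RA ⊆ Lb := biUnion_subset_biUnion_of_subset_left _ hAN
  have hSBL : SB ⊆ Lb := biUnion_subset_biUnion_of_subset_left _ hBN
  have hLbeq : Lb = RA ∪ SB := by
    apply subset_antisymm
    · intro z hz
      rw [hLb, mem_biUnion] at hz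
      obtain ⟨x, hx, hz⟩ := hz
      have hpos : 0 < (C x).card := card_pos.2 ⟨z, hz⟩
      by_cases h : 2 ≤ (C x).card
      · exact mem_union_left _ (mem_biUnion.2 ⟨x, by rw [hA, mem_filter]; exact ⟨hx, h⟩, hz⟩)
      · exact mem_union_right _ (mem_biUnion.2 ⟨x, by
          rw [hB, mem_filter]; exact ⟨hx, by change (C x).card = 1; omega⟩, hz⟩)
    · exact union_subset hRAL hSBL
  have hRS : Disjoint RA SB := by
    rw [hRA, hSB, disjoint_biUnion_left]
    intro x hx
    rw [disjoint_biUnion_right]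
    intro y hy
    apply hdisj x (hAN hx) y (hBN hy)
    rintro rfl
    exact (disjoint_left.1 hAB) hx hy
  have hρR : ρ ∈ RA := mem_biUnion.2 ⟨x0, hx0, hρ⟩
  have hρS : ρ ∉ SB := (disjoint_left.1 hRS) hρR
  have hRAc : RA.card = ∑ x ∈ A, (C x).card :=
    card_biUnion (fun x hx y hy hxy => hdisj x (hAN hx) y (hAN hy) hxy)
  have hSBc : SB.card = B.card := by
    rw [hSB, card_biUnion (fun x hx y hy hxy => hdisj x (hBN hx) y (hBN hy) hxy)]
    rw [card_eq_sum_ones]
    apply sum_congr rfl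
    intro x hx
    rw [hB, mem_filter] at hx
    exact hx.2
  have hLbc : Lb.card = ∑ x ∈ N, (C x).card :=
    card_biUnion (fun x hx y hy hxy => hdisj x hx y hy hxy)
  have htl : ∀ w, t w ≤ l := by
    intro w
    have : (joint Lb par dep l w).card ≤ (range l).card := by
      apply card_le_card
      intro j hj
      rw [mem_joint] at hj
      exact mem_range.2 hj.1
    rwa [card_range] at this
  refine ⟨∑ w ∈ RA.erase ρ, (t w - 1), ∑ w ∈ SB, (t w - 1), ?_, ?_, ?_⟩
  · have h3 := count_one R hF hLT hρL (hCL x0 hx0N hw0) hw0ρ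
    have h4 : Lb.erase ρ = RA.erase ρ ∪ SB := by
      rw [hLbeq, erase_union_distrib, erase_eq_of_notMem hρS]
    rw [h4, sum_union (hRS.mono_left (erase_subset _ _))] at h3
    rw [← hLbc]
    calc _ = l * Lb.card + (∑ w ∈ RA.erase ρ, (t w - 1) + ∑ w ∈ SB, (t w - 1)) := by ring
      _ ≤ T.card := h3
  · calc ∑ w ∈ SB, (t w - 1) ≤ ∑ w ∈ SB, (l - 1) :=
        sum_le_sum (fun w _ => Nat.sub_le_sub_right (htl w) 1)
      _ = B.card * (l - 1) := by rw [sum_const, smul_eq_mul, hSBc]
  · -- the sum of the second counting inequality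
    have hkey : ∀ x ∈ A, l * (C x).card + l * Lb.card ≤
        T.card + (∑ w ∈ (RA \ C x).erase ρ, t w + ∑ w ∈ SB, t w) + (if x = x0 then 0 else l) := by
      intro x hx
      have hxc : 2 ≤ (C x).card := by
        have := hx
        rw [hA, mem_filter] at this
        exact this.2
      have h3 := count_two R hF (hF2 x (hAN hx)) hLT hρL (hCL x (hAN hx)) hxc
      have h4 : (Lb \ C x).erase ρ = (RA \ C x).erase ρ ∪ SB := by
        have h5 : SB \ C x = SB := by
          apply sdiff_eq_self_of_disjoint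
          rw [hSB, disjoint_biUnion_left]
          intro y hy
          apply hdisj y (hBN hy) x (hAN hx)
          rintro rfl
          exact (disjoint_left.1 hAB) hx hy
        rw [hLbeq, union_sdiff_distrib, h5, erase_union_distrib, erase_eq_of_notMem hρS]
      rw [h4, sum_union (hRS.mono_left ((erase_subset _ _).trans sdiff_subset))] at h3
      have h6 : (ρ ∈ C x) ↔ x = x0 := by
        constructor
        · intro h
          by_contra hne
          exact (disjoint_left.1 (hdisj x (hAN hx) x0 hx0N hne)) h hρ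
        · rintro rfl
          exact hρ
      simp only [h6] at h3
      exact h3
    have hsum := sum_le_sum hkey
    simp only [sum_add_distrib, sum_const, smul_eq_mul] at hsum
    have hY : ∑ x ∈ A, ∑ w ∈ (C x).erase ρ, t w = ∑ w ∈ RA.erase ρ, t w := by
      have h7 : RA.erase ρ = A.biUnion (fun x => (C x).erase ρ) := by
        ext z
        simp only [hRA, mem_erase, mem_biUnion]
        constructor
        · rintro ⟨h8, x, hx, hz⟩
          exact ⟨x, hx, h8, hz⟩
        · rintro ⟨x, hx, h8, hz⟩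
          exact ⟨h8, x, hx, hz⟩
      rw [h7, sum_biUnion]
      intro x hx y hy hxy
      exact (hdisj x (hAN hx) y (hAN hy) hxy).mono (erase_subset _ _) (erase_subset _ _)
    have hXY : ∀ x ∈ A, ∑ w ∈ (RA \ C x).erase ρ, t w + ∑ w ∈ (C x).erase ρ, t w =
        ∑ w ∈ RA.erase ρ, t w := by
      intro x hx
      rw [← sum_union]
      · congr 1
        rw [← erase_union_distrib, sdiff_union_of_subset (subset_biUnion_of_mem C hx)]
      · exact sdiff_disjoint.mono (erase_subset _ _) (erase_subset _ _)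
    have hX := sum_congr rfl hXY
    rw [sum_add_distrib, hY, sum_const, smul_eq_mul] at hX
    have hM : ∑ w ∈ RA.erase ρ, t w ≤ ∑ w ∈ RA.erase ρ, (t w - 1) +
        ((∑ x ∈ A, (C x).card) - 1) := by
      rw [← hRAc, ← card_erase_of_mem hρR, card_eq_sum_ones, ← sum_add_distrib]
      apply sum_le_sum
      intro w _
      omega
    have hMS : ∑ w ∈ SB, t w ≤ ∑ w ∈ SB, (t w - 1) + B.card := by
      rw [← hSBc, card_eq_sum_ones, ← sum_add_distrib]
      apply sum_le_sum
      intro w _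
      omega
    have hif : ∑ x ∈ A, (if x = x0 then 0 else l) = (A.card - 1) * l := by
      rw [← add_sum_erase A _ hx0, if_pos rfl, zero_add, ← card_erase_of_mem hx0,
        ← smul_eq_mul, ← sum_const]
      apply sum_congr rfl
      intro x hx
      rw [if_neg (ne_of_mem_erase hx)]
    rw [hif, ← mul_sum] at hsum
    obtain ⟨a, ha⟩ : ∃ a, A.card = a + 1 := ⟨A.card - 1, by have := card_pos.2 ⟨x0, hx0⟩; omega⟩
    rw [ha] at hsum hX ⊢
    rw [← hLbc]
    simp only [Nat.add_sub_cancel] at hsum ⊢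
    have e1 : ∑ x ∈ A, ∑ w ∈ (RA \ C x).erase ρ, t w = a * ∑ w ∈ RA.erase ρ, t w := by
      have : (a + 1) * ∑ w ∈ RA.erase ρ, t w = a * ∑ w ∈ RA.erase ρ, t w +
        ∑ w ∈ RA.erase ρ, t w := by ring
      omega
    rw [e1] at hsum
    have e2 := Nat.mul_le_mul_left a hM
    have e3 := Nat.mul_le_mul_left (a + 1) hMS
    have e4 : ∑ x ∈ A, (C x).card = ∑ x ∈ A, (Λ x ∩ T).card := rfl
    rw [e4] at hsum e2
    nlinarith [hsum, e2, e3]

end

end Pool.Agent.H45.GF
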