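import Pool.Agent.H38.Sep

/-!
# Erdos-Posa with a constant (helper45), first part: the separation lemma of H38, with the number of
vertices of degree at least three instead of the number of all vertices
-/

set_option autoImplicit false
set_option linter.unusedSectionVars false
set_option linter.unusedSimpArgs false
set_option linter.unusedVariables false

namespace Pool.Agent.H45.GF

open Finset Pool.Agent.H38

section
variable {V : Type*} [DecidableEq V]

open scoped Classical in
lemma dN_sup_edge (H : SimpleGraph V) {x y : V} (hxy : x ≠ y) (U : Finset V) (u : V) :
    dN (H ⊔ SimpleGraph.edge x y) U u ≤ dN H U u + (if u = x ∨ u = y then 1 else 0) := by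
  classical
  unfold dN
  split_ifs with h
  · rcases h with rfl | rfl
    · refine (card_le_card (t := (U.filter (fun v => H.Adj u v)) ∪ {y}) ?_).trans
        ((card_union_le _ _).trans (by simp))
      intro z hz
      simp only [mem_filter, SimpleGraph.sup_adj, SimpleGraph.edge_adj] at hz
      rw [mem_union, mem_filter, mem_singleton]
      rcases hz.2 with h1 | ⟨⟨_, h1⟩ | ⟨h1, h2⟩, _⟩
      · exact Or.inl ⟨hz.1, h1⟩
      · exact Or.inr h1
      · exact absurd h1 hxy
    · refine (card_le_card (t := (U.filter (fun v => H.Adj u v)) ∪ {x}) ?_).trans
        ((card_union_le _ _).trans (by simp))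
      intro z hz
      simp only [mem_filter, SimpleGraph.sup_adj, SimpleGraph.edge_adj] at hz
      rw [mem_union, mem_filter, mem_singleton]
      rcases hz.2 with h1 | ⟨⟨h1, _⟩ | ⟨_, h2⟩, _⟩
      · exact Or.inl ⟨hz.1, h1⟩
      · exact absurd h1.symm hxy
      · exact Or.inr h2
  · rw [add_zero]
    apply card_le_card
    intro z hz
    simp only [mem_filter, SimpleGraph.sup_adj, SimpleGraph.edge_adj] at hz
    rw [mem_filter]
    rcases hz.2 with h1 | ⟨⟨h1, _⟩ | ⟨h1, _⟩, _⟩
    · exact ⟨hz.1, h1⟩
    · exact absurd (Or.inl h1) h
    · exact absurd (Or.inr h1) h

theorem exists_sep' (N : ℕ) : ∀ (n : ℕ) (W : Finset V), W.card = n →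
    ∀ H : SimpleGraph V, (W.filter (fun v => 3 ≤ dN H W v)).card ≤ N → (∃ U ⊆ W, Dense H U) →
    ∃ C ⊆ W, ∃ Y ⊆ W, Dense H C ∧ Y.card ≤ 2 * Nat.log 2 N + 3 ∧
      ∀ D ⊆ W, Good H D → Disjoint D Y → Disjoint D C := by
  classical
  intro n
  induction n with
  | zero =>
    intro W hW H _ hex
    obtain ⟨U, hU, hd⟩ := hex
    rw [card_eq_zero] at hW
    subst hW
    have : U = ∅ := by simpa using hU
    subst this
    exact absurd hd.1 (by simp)
  | succ n ih =>
    intro W hW H hN hex
    obtain ⟨U, hU, hd⟩ := hex
    obtain ⟨D0, hD0U, hD0⟩ := hd.exists_good
    have hD0W := hD0U.trans hU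
    by_cases h3 : ∀ v ∈ W, 3 ≤ dN H W v
    · -- short dense set
      have hne : W.Nonempty := by rw [← card_pos]; omega
      obtain ⟨C, hCW, hCd, hCc⟩ := exists_short_dense H hne h3
      refine ⟨C, hCW, C, hCW, hCd, ?_, fun D _ _ h => h⟩
      refine hCc.trans ?_
      have hWN : W.card ≤ N := by
        rw [filter_true_of_mem h3] at hN
        exact hN
      have : Nat.log 2 W.card ≤ Nat.log 2 N := Nat.log_mono_right hWN
      omega
    · push Not at h3
      obtain ⟨v, hv, hdv⟩ := h3
      have hcW : (W.erase v).card = n := by rw [card_erase_of_mem hv]; omega
      by_cases h1 : dN H W v ≤ 1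
      · have hnot : ∀ D ⊆ W, Good H D → v ∉ D := by
          intro D hD hg hvD
          have := hg.2 v hvD
          have := dN_mono H hD v
          omega
        have hsub : ∀ D ⊆ W, Good H D → D ⊆ W.erase v := by
          intro D hD hg x hx
          rw [mem_erase]
          exact ⟨fun h => hnot D hD hg (h ▸ hx), hD hx⟩
        have hN' : ((W.erase v).filter (fun u => 3 ≤ dN H (W.erase v) u)).card ≤ N := by
          refine le_trans (card_le_card ?_) hN
          intro u hu
          rw [mem_filter, mem_erase] at hu
          rw [mem_filter]
          exact ⟨hu.1.2, hu.2.trans (dN_mono H (erase_subset _ _) u)⟩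
        obtain ⟨C, hC, Y, hY, hCd, hYc, hsep⟩ := ih (W.erase v) hcW H hN'
          ⟨D0, hsub D0 hD0W hD0, hD0.dense⟩
        exact ⟨C, hC.trans (erase_subset _ _), Y, hY.trans (erase_subset _ _), hCd, hYc,
          fun D hD hg hdis => hsep D (hsub D hD hg) hg hdis⟩
      · have h2 : dN H W v = 2 := by omega
        obtain ⟨x, hx, y, hy, hxy, ax, ay⟩ := exists_two_of_two_le_dN H (show 2 ≤ dN H W v by omega)
        -- neighbours of v in W are exactly x and y
        have honly : ∀ u ∈ W, H.Adj v u → u = x ∨ u = y := by
          intro u hu hau
          by_contra hcon
          push Not at hcon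
          unfold dN at h2
          have hsub : ({u, x, y} : Finset V) ⊆ W.filter (fun u => H.Adj v u) := by
            intro z hz
            simp only [mem_insert, mem_singleton] at hz
            rw [mem_filter]
            rcases hz with rfl | rfl | rfl
            · exact ⟨hu, hau⟩
            · exact ⟨hx, ax⟩
            · exact ⟨hy, ay⟩
          have hc3 : ({u, x, y} : Finset V).card = 3 := by
            rw [card_insert_of_notMem, card_pair hxy]
            simp [hcon.1, hcon.2]
          have := card_le_card hsub
          omega
        -- in a good set containing v both x and y occur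
        have hboth : ∀ D ⊆ W, Good H D → v ∈ D → x ∈ D ∧ y ∈ D := by
          intro D hD hg hvD
          obtain ⟨w₁, hw₁, w₂, hw₂, hne, a₁, a₂⟩ := exists_two_of_two_le_dN H (hg.2 v hvD)
          rcases honly w₁ (hD hw₁) a₁ with rfl | rfl <;> rcases honly w₂ (hD hw₂) a₂ with rfl | rfl
          · exact absurd rfl hne
          · exact ⟨hw₁, hw₂⟩
          · exact ⟨hw₂, hw₁⟩
          · exact absurd rfl hne
        by_cases hadj : H.Adj x y
        · -- triangle
          refine ⟨{v, x, y}, ?_, {x, y}, ?_, ?_, ?_, ?_⟩
          · intro z hz
            simp only [mem_insert, mem_singleton] at hz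
            rcases hz with rfl | rfl | rfl <;> assumption
          · intro z hz
            simp only [mem_insert, mem_singleton] at hz
            rcases hz with rfl | rfl <;> assumption
          · refine ⟨by simp, ?_⟩
            have hxn : x ∉ ({y} : Finset V) := by simpa using hxy
            have hvn : v ∉ ({x, y} : Finset V) := by
              simp only [mem_insert, mem_singleton]
              rintro (h | h)
              · exact ax.ne h
              · exact ay.ne h
            have e1 := eI_insert H hxn
            have e2 := eI_insert H hvn
            have d1 := one_le_dN_of_adj H (U := {y}) (by simp) hadj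
            have d2 := two_le_dN_of_adj H (U := {x, y}) hxy (by simp) (by simp) ax ay
            rw [card_insert_of_notMem hvn, card_insert_of_notMem hxn, card_singleton]
            omega
          · rw [card_pair hxy]; omega
          · intro D hD hg hdis
            rw [disjoint_left] at hdis ⊢
            intro z hz hz'
            simp only [mem_insert, mem_singleton] at hz'
            rcases hz' with rfl | rfl | rfl
            · exact hdis (hboth D hD hg hz).1 (by simp)
            · exact hdis hz (by simp)
            · exact hdis hz (by simp)
        · -- suppress v
          set H' := H ⊔ SimpleGraph.edge x y with hH'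
          have hle : H ≤ H' := le_sup_left
          have hxy' : H'.Adj x y := by
            rw [hH', SimpleGraph.sup_adj, SimpleGraph.edge_adj]
            right; exact ⟨Or.inl ⟨rfl, rfl⟩, hxy⟩
          have hvx : v ≠ x := ax.ne
          have hvy : v ≠ y := ay.ne
          have htrans : ∀ D ⊆ W, Good H D → Good H' (D.erase v) := by
            intro D hD hg
            by_cases hvD : v ∈ D
            · obtain ⟨hxD, hyD⟩ := hboth D hD hg hvD
              refine ⟨⟨x, by simp [hvx.symm, hxD]⟩, ?_⟩
              intro u hu
              rw [mem_erase] at hu
              obtain ⟨w₁, hw₁, w₂, hw₂, hne, a₁, a₂⟩ := exists_two_of_two_le_dN H (hg.2 u hu.2)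
              by_cases hux : u = x
              · subst hux
                -- one of w₁, w₂ is not v ; plus y
                by_cases hw : w₁ = v
                · subst hw
                  have hw2v : w₂ ≠ w₁ := hne.symm
                  have hw2y : w₂ ≠ y := by rintro rfl; exact hadj a₂
                  exact two_le_dN_of_adj H' hw2y (by simp [hw2v, hw₂]) (by simp [hvy.symm, hyD])
                    (hle a₂) hxy'
                · have hw1y : w₁ ≠ y := by rintro rfl; exact hadj a₁
                  exact two_le_dN_of_adj H' hw1y (by simp [hw, hw₁]) (by simp [hvy.symm, hyD])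
                    (hle a₁) hxy'
              · by_cases huy : u = y
                · subst huy
                  by_cases hw : w₁ = v
                  · subst hw
                    have hw2v : w₂ ≠ w₁ := hne.symm
                    have hw2x : w₂ ≠ x := by rintro rfl; exact hadj a₂.symm
                    exact two_le_dN_of_adj H' hw2x (by simp [hw2v, hw₂]) (by simp [hvx.symm, hxD])
                      (hle a₂) hxy'.symm
                  · have hw1x : w₁ ≠ x := by rintro rfl; exact hadj a₁.symm
                    exact two_le_dN_of_adj H' hw1x (by simp [hw, hw₁]) (by simp [hvx.symm, hxD])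
                      (hle a₁) hxy'.symm
                · have hnv : ∀ w, H.Adj u w → w ≠ v := by
                    rintro w haw rfl
                    rcases honly u (hD hu.2) haw.symm with h | h
                    · exact hux h
                    · exact huy h
                  exact two_le_dN_of_adj H' hne (by simp [hnv w₁ a₁, hw₁]) (by simp [hnv w₂ a₂, hw₂])
                    (hle a₁) (hle a₂)
            · rw [erase_eq_of_notMem hvD]
              exact ⟨hg.1, fun u hu => (hg.2 u hu).trans (dN_mono_graph hle D u)⟩
          have hsub : ∀ D ⊆ W, D.erase v ⊆ W.erase v := fun D hD => erase_subset_erase _ hD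
          have hN' : ((W.erase v).filter (fun u => 3 ≤ dN H' (W.erase v) u)).card ≤ N := by
            refine le_trans (card_le_card ?_) hN
            intro u hu
            rw [mem_filter, mem_erase] at hu
            rw [mem_filter]
            refine ⟨hu.1.2, hu.2.trans ?_⟩
            have h5 := dN_sup_edge H hxy (W.erase v) u
            have h6 := dN_insert H (U := W.erase v) (w := v) (by simp) u
            rw [insert_erase hv] at h6
            rw [hH', h6]
            refine h5.trans (Nat.add_le_add_left ?_ _)
            by_cases hux : u = x ∨ u = y
            · rw [if_pos hux, if_pos]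
              rcases hux with rfl | rfl
              · exact ax.symm
              · exact ay.symm
            · rw [if_neg hux]
              exact Nat.zero_le _
          obtain ⟨C', hC', Y, hY, hCd, hYc, hsep⟩ := ih (W.erase v) hcW H' hN'
            ⟨D0.erase v, hsub D0 hD0W, (htrans D0 hD0W hD0).dense⟩
          have hvC' : v ∉ C' := fun h => by simpa using hC' h
          have heI := eI_sup_edge H x y C'
          rw [← hH'] at heI
          by_cases hboth' : x ∈ C' ∧ y ∈ C'
          · refine ⟨insert v C', insert_subset hv (hC'.trans (erase_subset _ _)), Y,
              hY.trans (erase_subset _ _), ?_, hYc, ?_⟩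
            · refine ⟨insert_nonempty _ _, ?_⟩
              rw [card_insert_of_notMem hvC', eI_insert H hvC']
              have d2 := two_le_dN_of_adj H hxy hboth'.1 hboth'.2 ax ay
              rw [if_pos hboth'] at heI
              have := hCd.2
              omega
            · intro D hD hg hdis
              have h1 : Disjoint (D.erase v) C' := hsep _ (hsub D hD) (htrans D hD hg)
                (hdis.mono_left (erase_subset _ _))
              have hvD : v ∉ D := by
                intro hvD
                have := hboth D hD hg hvD
                rw [disjoint_left] at h1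
                exact h1 (by simp [hvx.symm, this.1]) hboth'.1
              rw [erase_eq_of_notMem hvD] at h1
              rw [disjoint_insert_right]
              exact ⟨hvD, h1⟩
          · refine ⟨C', hC'.trans (erase_subset _ _), Y,
              hY.trans (erase_subset _ _), ⟨hCd.1, ?_⟩, hYc, ?_⟩
            · rw [if_neg hboth'] at heI
              have := hCd.2
              omega
            · intro D hD hg hdis
              have h1 : Disjoint (D.erase v) C' := hsep _ (hsub D hD) (htrans D hD hg)
                (hdis.mono_left (erase_subset _ _))
              rw [disjoint_left] at h1 ⊢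
              intro z hz hz'
              refine h1 ?_ hz'
              rw [mem_erase]
              exact ⟨fun h => hvC' (h ▸ hz'), hz⟩

end

end Pool.Agent.H45.GF
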