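import Pool.Agent.H45.GF.EPa
import Pool.Agent.H38.Dist

/-!
# Erdos-Posa with a constant (helper45), second part: a graph with degrees 2 and 3 and many vertices of
degree 3 contains `k` disjoint dense sets
-/

set_option autoImplicit false
set_option linter.unusedSectionVars false
set_option linter.unusedSimpArgs false
set_option linter.unusedVariables false

namespace Pool.Agent.H45.GF

open Finset Pool.Agent.H38

section
variable {V : Type*} [DecidableEq V]

theorem exists_hitting' (G : SimpleGraph V) (N : ℕ) : ∀ (k : ℕ) (W : Finset V),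
    (W.filter (fun v => 3 ≤ dN G W v)).card ≤ N →
    ¬ Pack G W k → ∃ X ⊆ W, X.card ≤ k * (2 * Nat.log 2 N + 3) ∧ Sparse G (W \ X) := by
  classical
  intro k
  induction k with
  | zero =>
    intro W _ h
    exfalso
    exact h ⟨fun i => i.elim0, fun i => i.elim0, fun i => i.elim0⟩
  | succ k ih =>
    intro W hW h
    by_cases hex : ∃ U ⊆ W, Dense G U
    · obtain ⟨C, hC, Y, hY, hCd, hYc, hsep⟩ := exists_sep' N W.card W rfl G hW hex
      have hnp : ¬ Pack G (W \ Y) k := by
        rintro ⟨f, hf, hdis⟩
        choose g hgs hgg using fun i => (hf i).2.exists_good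
        apply h
        refine ⟨Fin.cons C g, ?_, ?_⟩
        · intro i
          refine Fin.cases ?_ ?_ i
          · exact ⟨hC, hCd⟩
          · intro j
            simp only [Fin.cons_succ]
            exact ⟨(hgs j).trans ((hf j).1.trans sdiff_subset), (hgg j).dense⟩
        · have hgC : ∀ j, Disjoint (g j) C := by
            intro j
            apply hsep (g j) ((hgs j).trans ((hf j).1.trans sdiff_subset)) (hgg j)
            rw [disjoint_left]
            intro z hz hzY
            have := (hf j).1 (hgs j hz)
            rw [mem_sdiff] at this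
            exact this.2 hzY
          intro i j
          refine Fin.cases ?_ (fun i' => ?_) i <;> refine Fin.cases ?_ (fun j' => ?_) j
          · intro h; exact absurd rfl h
          · intro _; simpa using (hgC j').symm
          · intro _; simpa using hgC i'
          · intro hne
            simp only [Fin.cons_succ]
            exact (hdis i' j' (fun h => hne (by rw [h]))).mono (hgs i') (hgs j')
      have hW' : ((W \ Y).filter (fun v => 3 ≤ dN G (W \ Y) v)).card ≤ N := by
        refine le_trans (card_le_card ?_) hW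
        intro u hu
        rw [mem_filter, mem_sdiff] at hu
        rw [mem_filter]
        exact ⟨hu.1.1, hu.2.trans (dN_mono G sdiff_subset u)⟩
      obtain ⟨X, hX, hXc, hXs⟩ := ih (W \ Y) hW' hnp
      refine ⟨Y ∪ X, union_subset hY (hX.trans sdiff_subset), ?_, ?_⟩
      · calc (Y ∪ X).card ≤ Y.card + X.card := card_union_le _ _
          _ ≤ (2 * Nat.log 2 N + 3) + k * (2 * Nat.log 2 N + 3) := Nat.add_le_add hYc hXc
          _ = _ := by ring
      · have : W \ (Y ∪ X) = (W \ Y) \ X := by
          ext z; simp only [mem_sdiff, mem_union]; tauto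
        rwa [this]
    · refine ⟨∅, by simp, by simp, ?_⟩
      rw [sparse_iff_no_dense]
      intro U hU hd
      exact hex ⟨U, hU.trans sdiff_subset, hd⟩

theorem log_bound (k N : ℕ) (h : N ≤ 4 * k * (2 * Nat.log 2 N + 3)) : N ≤ 2 ^ (40 * k + 1) := by
  have hsq : ∀ j : ℕ, j + 1 ≤ 2 ^ j ∧ j * j ≤ 2 * 2 ^ j := by
    intro j
    induction j with
    | zero => simp
    | succ j ih =>
      obtain ⟨h1, h2⟩ := ih
      rw [pow_succ]
      constructor
      · omega
      · nlinarith
  rcases Nat.eq_zero_or_pos N with h0 | h0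
  · rw [h0]; exact Nat.zero_le _
  set j := Nat.log 2 N with hj
  have h1 : 2 ^ j ≤ N := Nat.pow_log_le_self 2 (by omega)
  have h2 : N < 2 ^ (j + 1) := Nat.lt_pow_succ_log_self (by norm_num) _
  have h3 : j ≤ 40 * k := by
    by_contra hcon
    push Not at hcon
    have h4 := (hsq j).2
    have h5 : j * j ≤ 8 * k * (2 * j + 3) := by nlinarith
    have hj1 : 1 ≤ j := by omega
    have h6 : 8 * k * (2 * j + 3) ≤ 8 * k * (5 * j) := Nat.mul_le_mul_left _ (by omega)
    have h7 : 40 * k * j < j * j := Nat.mul_lt_mul_of_pos_right hcon (by omega)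
    have h8 : 8 * k * (5 * j) = 40 * k * j := by ring
    omega
  exact le_of_lt (lt_of_lt_of_le h2 (Nat.pow_le_pow_right (by norm_num) (by omega)))

theorem pack_of_many {H : SimpleGraph V} {W : Finset V} {k : ℕ}
    (hd : ∀ v ∈ W, dN H W v = 2 ∨ dN H W v = 3)
    (hm : 2 ^ (40 * k + 1) < (W.filter (fun v => 3 ≤ dN H W v)).card) : Pack H W k := by
  classical
  by_contra hP
  set N := (W.filter (fun v => 3 ≤ dN H W v)).card with hN
  obtain ⟨X, hX, hXc, hXs⟩ := exists_hitting' H N k W le_rfl hP
  have h1 := sum_dN H W
  have h2 : ∑ v ∈ W, dN H W v = 2 * W.card + N := by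
    have : ∀ v ∈ W, dN H W v = 2 + (if 3 ≤ dN H W v then 1 else 0) := by
      intro v hv
      rcases hd v hv with h | h <;> rw [h] <;> rfl
    rw [sum_congr rfl this, sum_add_distrib, sum_const, smul_eq_mul, mul_comm, hN, card_filter]
  have h3 := eI_union_disjoint (G := H) (U := X) (W := W \ X) disjoint_sdiff
  rw [union_sdiff_of_subset hX] at h3
  have h4 := sum_dN H X
  have h5 : ∑ z ∈ X, dN H X z + ∑ z ∈ X, dN H (W \ X) z ≤ 3 * X.card := by
    rw [← sum_add_distrib]
    calc ∑ z ∈ X, (dN H X z + dN H (W \ X) z) ≤ ∑ z ∈ X, 3 := by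
          apply sum_le_sum
          intro z hz
          rw [← dN_union_disjoint H (disjoint_sdiff), union_sdiff_of_subset hX]
          rcases hd z (hX hz) with h | h <;> omega
      _ = 3 * X.card := by rw [sum_const, smul_eq_mul, mul_comm]
  have h6 : eI H (W \ X) ≤ (W \ X).card := by
    by_cases hne : (W \ X).Nonempty
    · exact le_of_lt (hXs _ subset_rfl hne)
    · rw [not_nonempty_iff_eq_empty] at hne
      rw [hne]
      simp
  have h7 : (W \ X).card + X.card = W.card := card_sdiff_add_card_eq_card hX
  have h8 : N ≤ 4 * k * (2 * Nat.log 2 N + 3) := by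
    have : 4 * X.card ≤ 4 * (k * (2 * Nat.log 2 N + 3)) := Nat.mul_le_mul_left _ hXc
    rw [mul_assoc]
    omega
  have := log_bound k N h8
  omega

end

end Pool.Agent.H45.GF
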