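import Pool.Agent.H38.Comps

/-!
# Erdos-Posa with a constant (helper45), third part: minimal good sets
-/

set_option autoImplicit false
set_option linter.unusedSectionVars false
set_option linter.unusedSimpArgs false
set_option linter.unusedVariables false

namespace Pool.Agent.H45.GF

open Finset Pool.Agent.H38

/-- minimal good sets: the vertex sets of the induced cycles -/
def MinGood {V : Type*} (G : SimpleGraph V) (D : Finset V) : Prop :=
  Good G D ∧ ∀ D' ⊆ D, Good G D' → D' = D

/-- the graph `G` restricted to the vertices in `D` -/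
def rs {V : Type*} (G : SimpleGraph V) (D : Finset V) : SimpleGraph V where
  Adj a b := G.Adj a b ∧ a ∈ D ∧ b ∈ D
  symm := ⟨fun _ _ h => ⟨h.1.symm, h.2.2, h.2.1⟩⟩
  loopless := ⟨fun _ h => G.irrefl h.1⟩

section
variable {V : Type*} [DecidableEq V] {G : SimpleGraph V}

theorem exists_minGood : ∀ (n : ℕ) (U : Finset V), U.card = n → Good G U →
    ∃ D ⊆ U, MinGood G D := by
  intro n
  induction n using Nat.strong_induction_on with
  | _ n ih =>
    intro U hU hg
    by_cases h : ∃ D' ⊆ U, Good G D' ∧ D' ≠ U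
    · obtain ⟨D', hD', hg', hne⟩ := h
      have hlt : D'.card < U.card := card_lt_card (ssubset_of_subset_of_ne hD' hne)
      obtain ⟨D, hD, hm⟩ := ih D'.card (by omega) D' rfl hg'
      exact ⟨D, hD.trans hD', hm⟩
    · push Not at h
      exact ⟨U, subset_rfl, hg, h⟩

theorem MinGood.sparse {D : Finset V} (h : MinGood G D) {D' : Finset V} (hs : D' ⊆ D)
    (hne : D' ≠ D) : Sparse G D' := by
  rw [sparse_iff_no_dense]
  intro U hU hd
  obtain ⟨D1, hD1, hg⟩ := hd.exists_good
  have h1 := h.2 D1 (hD1.trans (hU.trans hs)) hg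
  apply hne
  apply subset_antisymm hs
  rw [← h1]
  exact hD1.trans hU

theorem MinGood.dN_eq {D : Finset V} (h : MinGood G D) : ∀ v ∈ D, dN G D v = 2 := by
  classical
  have hge : ∀ v ∈ D, 2 ≤ dN G D v := h.1.2
  obtain ⟨v0, hv0⟩ := h.1.1
  have hc3 : 3 ≤ D.card := by
    have h1 := hge v0 hv0
    have h2 : dN G D v0 ≤ (D.erase v0).card := by
      rw [← dN_erase_self]
      unfold dN
      exact card_le_card (filter_subset _ _)
    rw [card_erase_of_mem hv0] at h2
    omega
  have hdense := h.1.dense.2
  have hlow : ∀ v ∈ D, eI G D + 2 ≤ dN G D v + D.card := by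
    intro v hv
    have h1 := eI_erase' G hv
    have h2 : (D.erase v).Nonempty := by
      rw [← card_pos, card_erase_of_mem hv]
      omega
    have h3 := (h.sparse (erase_subset v D) (by
      intro he
      rw [← he] at hv
      simp at hv)) _ subset_rfl h2
    rw [card_erase_of_mem hv] at h3
    omega
  have hsum := sum_dN G D
  have h4 : D.card * (eI G D + 2) ≤ 2 * eI G D + D.card * D.card := by
    have := sum_le_sum hlow
    rw [sum_const, smul_eq_mul, sum_add_distrib, sum_const, smul_eq_mul, hsum] at this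
    exact this
  have h5 : eI G D = D.card := by
    apply le_antisymm _ hdense
    by_contra hcon
    push Not at hcon
    obtain ⟨e, he⟩ : ∃ e, eI G D = D.card + e := ⟨eI G D - D.card, by omega⟩
    obtain ⟨c, hc⟩ : ∃ c, D.card = c + 3 := ⟨D.card - 3, by omega⟩
    rw [he, hc] at h4
    rw [he] at hcon
    have : 1 ≤ e := by omega
    nlinarith
  have h6 : ∑ v ∈ D, 2 = ∑ v ∈ D, dN G D v := by
    rw [hsum, h5, sum_const, smul_eq_mul, mul_comm]
  have h7 := (sum_eq_sum_iff_of_le hge).1 h6
  intro v hv
  exact (h7 v hv).symm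

theorem MinGood.reach {D : Finset V} (h : MinGood G D) {a b : V} (ha : a ∈ D) (hb : b ∈ D) :
    (rs G D).Reachable a b := by
  classical
  set R := D.filter (fun v => (rs G D).Reachable a v) with hR
  have hRD : R ⊆ D := filter_subset _ _
  have hg : Good G R := by
    refine ⟨⟨a, by rw [hR, mem_filter]; exact ⟨ha, SimpleGraph.Reachable.refl _⟩⟩, ?_⟩
    intro v hv
    have hv' := hv
    rw [hR, mem_filter] at hv'
    refine (h.1.2 v hv'.1).trans ?_
    unfold dN
    apply card_le_card
    intro u hu
    rw [mem_filter] at hu ⊢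
    refine ⟨?_, hu.2⟩
    rw [hR, mem_filter]
    refine ⟨hu.1, hv'.2.trans ?_⟩
    exact SimpleGraph.Adj.reachable (show (rs G D).Adj v u from ⟨hu.2, hv'.1, hu.1⟩)
  have := h.2 R hRD hg
  rw [← this] at hb
  rw [hR, mem_filter] at hb
  exact hb.2

end

end Pool.Agent.H45.GF
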