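import Pool.Agent.H45.GF.EPc

/-!
# Erdos-Posa with a constant (helper45), fourth part: a maximal subgraph with degrees 0, 2, 3 and the
minimal good sets which avoid its vertices of degree 3
-/

set_option autoImplicit false
set_option linter.unusedSectionVars false
set_option linter.unusedSimpArgs false
set_option linter.unusedVariables false

namespace Pool.Agent.H45.GF

open Finset Pool.Agent.H38

/-- `H` is a subgraph of `G` with all degrees 0, 2 or 3 -/
structure Sub23 {V : Type*} [Fintype V] (G H : SimpleGraph V) : Prop where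
  le : H ≤ G
  deg : ∀ v, dN H univ v = 0 ∨ dN H univ v = 2 ∨ dN H univ v = 3

/-- maximality -/
def Max23 {V : Type*} [Fintype V] (G H : SimpleGraph V) : Prop :=
  Sub23 G H ∧ ∀ H', Sub23 G H' → H ≤ H' → H' ≤ H

section
variable {V : Type*} [DecidableEq V] [Fintype V] {G H : SimpleGraph V}

theorem exists_max23 (G : SimpleGraph V) : ∃ H, Max23 G H := by
  classical
  have hfin : Finite (SimpleGraph V) := inferInstance
  have h0 : Sub23 G ⊥ := ⟨bot_le, fun v => Or.inl (by simp [dN])⟩
  obtain ⟨H, hH⟩ := (Set.toFinite {H : SimpleGraph V | Sub23 G H}).exists_maximal ⟨⊥, h0⟩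
  exact ⟨H, hH.1, fun H' h' hle => hH.2 h' hle⟩

theorem dN_sup_le (H K : SimpleGraph V) (U : Finset V) (v : V) :
    dN (H ⊔ K) U v ≤ dN H U v + dN K U v := by
  classical
  unfold dN
  refine (card_le_card (t := U.filter (fun u => H.Adj v u) ∪ U.filter (fun u => K.Adj v u)) ?_).trans
    (card_union_le _ _)
  intro u hu
  simp only [mem_filter, SimpleGraph.sup_adj, mem_union] at hu ⊢
  rcases hu with ⟨h1, h2 | h2⟩
  · exact Or.inl ⟨h1, h2⟩
  · exact Or.inr ⟨h1, h2⟩

theorem dN_sup_disj (H K : SimpleGraph V) (U : Finset V) (v : V)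
    (h : ∀ u ∈ U, H.Adj v u → ¬ K.Adj v u) : dN (H ⊔ K) U v = dN H U v + dN K U v := by
  classical
  unfold dN
  rw [← card_union_of_disjoint]
  · congr 1
    ext u
    simp only [mem_filter, SimpleGraph.sup_adj, mem_union]
    tauto
  · rw [disjoint_left]
    intro u hu hu'
    rw [mem_filter] at hu hu'
    exact h u hu.1 hu.2 hu'.2

theorem dN_eq_zero_iff {H : SimpleGraph V} {U : Finset V} {v : V} :
    dN H U v = 0 ↔ ∀ u ∈ U, ¬ H.Adj v u := by
  classical
  unfold dN
  rw [card_eq_zero, filter_eq_empty_iff]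

theorem not_adj_of_zero {H : SimpleGraph V} {v : V} (h : dN H univ v = 0) (u : V) :
    ¬ H.Adj v u := dN_eq_zero_iff.1 h u (mem_univ _)

/-- adding a graph which keeps the degrees in `{0, 2, 3}` -/
theorem Max23.absorb (hH : Max23 G H) {K : SimpleGraph V} (hK : K ≤ G)
    (hd : ∀ v, dN (H ⊔ K) univ v = 0 ∨ dN (H ⊔ K) univ v = 2 ∨ dN (H ⊔ K) univ v = 3) : K ≤ H :=
  le_sup_right.trans (hH.2 (H ⊔ K) ⟨sup_le hH.1.le hK, hd⟩ le_sup_left)

theorem dN_rs {D : Finset V} {v : V} (hv : v ∈ D) : dN (rs G D) univ v = dN G D v := by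
  classical
  unfold dN
  congr 1
  ext u
  simp only [mem_filter, rs, mem_univ, true_and]
  tauto

/-- a minimal good set meets the support of `H` -/
theorem Max23.meets (hH : Max23 G H) {D : Finset V} (hD : MinGood G D) :
    ∃ z ∈ D, dN H univ z ≠ 0 := by
  classical
  by_contra hcon
  push Not at hcon
  have hKG : rs G D ≤ G := fun a b h => h.1
  have hK : rs G D ≤ H := by
    apply hH.absorb hKG
    intro v
    by_cases hv : v ∈ D
    · rw [dN_sup_disj H _ _ _ (fun u _ h => absurd h (not_adj_of_zero (hcon v hv) u)), hcon v hv,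
        dN_rs hv, hD.dN_eq v hv]
      exact Or.inr (Or.inl rfl)
    · have h0 : dN (rs G D) univ v = 0 := by
        rw [dN_eq_zero_iff]
        intro u _ h
        exact hv h.2.1
      have h1 := dN_sup_le H (rs G D) univ v
      have h2 : dN H univ v ≤ dN (H ⊔ rs G D) univ v := dN_mono_graph le_sup_left univ v
      have h3 : dN (H ⊔ rs G D) univ v = dN H univ v := by omega
      rw [h3]
      exact hH.1.deg v
  obtain ⟨v, hv⟩ := hD.1.1
  obtain ⟨w, hw, _, _, _, ha, _⟩ := exists_two_of_two_le_dN G (hD.1.2 v hv)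
  exact not_adj_of_zero (hcon v hv) w (hK (show (rs G D).Adj v w from ⟨ha, hv, hw⟩))

/-- a minimal good set which meets the support in two vertices and avoids the vertices of degree 3
is a component of `H` -/
theorem Max23.inside (hH : Max23 G H) {D : Finset V} (hD : MinGood G D)
    (h3 : ∀ v ∈ D, dN H univ v ≠ 3) {z z' : V} (hz : z ∈ D) (hz' : z' ∈ D) (hzz : z ≠ z')
    (hs : dN H univ z ≠ 0) (hs' : dN H univ z' ≠ 0) :
    ∀ a ∈ D, dN H univ a = 2 ∧ ∀ b ∈ D, G.Adj a b → H.Adj a b := by
  classical
  have h02 : ∀ v ∈ D, dN H univ v = 0 ∨ dN H univ v = 2 := by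
    intro v hv
    have := h3 v hv
    rcases hH.1.deg v with h | h | h
    · exact Or.inl h
    · exact Or.inr h
    · exact absurd h this
  have hall : ∀ a ∈ D, dN H univ a ≠ 0 := by
    by_contra hcon
    push Not at hcon
    obtain ⟨v0, hv0, hv00⟩ := hcon
    set O := D.filter (fun v => dN H univ v = 0) with hO
    have hOD : O ⊆ D := filter_subset _ _
    have hv0O : v0 ∈ O := by rw [hO, mem_filter]; exact ⟨hv0, hv00⟩
    have hzO : z ∉ O := by rw [hO, mem_filter]; exact fun h => hs h.2
    have hzO' : z' ∉ O := by rw [hO, mem_filter]; exact fun h => hs' h.2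
    have hOne : O ≠ D := fun h => hzO (h ▸ hz)
    have hOs := hD.sparse hOD hOne
    set P := comp G O v0 with hP
    have hPO : P ⊆ O := comp_subset O v0
    have hPs : IsSub G P := isSub_comp hOs hv0O
    have hPD := hPO.trans hOD
    have hv0P : v0 ∈ P := mem_comp_self hv0O
    have hclosed : ∀ u ∈ P, ∀ w ∈ O, G.Adj u w → w ∈ P :=
      fun u hu w hw ha => comp_closed hOs hu hw ha
    have hP1 : ∀ v ∈ D, v ∉ P → dN G P v ≤ 1 := by
      intro v hv hvP
      by_contra hc
      push Not at hc
      have hdense : Dense G (insert v P) := by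
        refine ⟨insert_nonempty _ _, ?_⟩
        rw [card_insert_of_notMem hvP, eI_insert G hvP]
        have := hPs.2
        omega
      obtain ⟨D1, hD1, hg⟩ := hdense.exists_good
      have h1 := hD.2 D1 (hD1.trans (insert_subset hv hPD)) hg
      rw [h1] at hD1
      have e1 := hD1 hz
      have e2 := hD1 hz'
      rw [mem_insert] at e1 e2
      have e1' : z = v := e1.resolve_right (fun h => hzO (hPO h))
      have e2' : z' = v := e2.resolve_right (fun h => hzO' (hPO h))
      exact hzz (e1'.trans e2'.symm)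
    let K : SimpleGraph V :=
      { Adj := fun a b => G.Adj a b ∧ a ∈ D ∧ b ∈ D ∧ (a ∈ P ∨ b ∈ P)
        symm := ⟨fun _ _ h => ⟨h.1.symm, h.2.2.1, h.2.1, h.2.2.2.symm⟩⟩
        loopless := ⟨fun _ h => G.irrefl h.1⟩ }
    have hKG : K ≤ G := fun a b h => h.1
    have hKle : K ≤ H := by
      apply hH.absorb hKG
      intro v
      by_cases hvP : v ∈ P
      · have hv0' : dN H univ v = 0 := by
          have := hPO hvP
          rw [hO, mem_filter] at this
          exact this.2
        have hKv : dN K univ v = dN G D v := by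
          unfold dN
          congr 1
          ext u
          simp only [mem_filter, mem_univ, true_and, K]
          constructor
          · rintro ⟨h1, _, h2, _⟩; exact ⟨h2, h1⟩
          · rintro ⟨h1, h2⟩; exact ⟨h2, hPD hvP, h1, Or.inl hvP⟩
        rw [dN_sup_disj H K _ _ (fun u _ h => absurd h (not_adj_of_zero hv0' u)), hv0', hKv,
          hD.dN_eq v (hPD hvP)]
        exact Or.inr (Or.inl rfl)
      · by_cases hvD : v ∈ D
        · have hKv : dN K univ v = dN G P v := by
            unfold dN
            congr 1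
            ext u
            simp only [mem_filter, mem_univ, true_and, K]
            constructor
            · rintro ⟨h1, _, _, h2 | h2⟩
              · exact absurd h2 hvP
              · exact ⟨h2, h1⟩
            · rintro ⟨h1, h2⟩; exact ⟨h2, hvD, hPD h1, Or.inr h1⟩
          have hdis : ∀ u ∈ (univ : Finset V), H.Adj v u → ¬ K.Adj v u := by
            rintro u _ h ⟨_, _, _, h2 | h2⟩
            · exact hvP h2
            · have := hPO h2
              rw [hO, mem_filter] at this
              exact not_adj_of_zero this.2 v h.symm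
          rw [dN_sup_disj H K _ _ hdis, hKv]
          rcases h02 v hvD with h | h
          · have hz0 : dN G P v = 0 := by
              rw [dN_eq_zero_iff]
              intro u hu ha
              exact hvP (hclosed u hu v (by rw [hO, mem_filter]; exact ⟨hvD, h⟩) ha.symm)
            rw [h, hz0]
            exact Or.inl rfl
          · rw [h]
            have := hP1 v hvD hvP
            omega
        · have h0 : dN K univ v = 0 := by
            rw [dN_eq_zero_iff]
            intro u _ h
            exact hvD h.2.1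
          have h1 := dN_sup_le H K univ v
          have h2 : dN H univ v ≤ dN (H ⊔ K) univ v := dN_mono_graph le_sup_left univ v
          have h3 : dN (H ⊔ K) univ v = dN H univ v := by omega
          rw [h3]
          exact hH.1.deg v
    obtain ⟨w, hw, _, _, _, ha, _⟩ := exists_two_of_two_le_dN G (hD.1.2 v0 hv0)
    exact not_adj_of_zero hv00 w (hKle (show K.Adj v0 w from ⟨ha, hv0, hw, Or.inl hv0P⟩))
  intro a ha
  have ha2 : dN H univ a = 2 := (h02 a ha).resolve_left (hall a ha)
  refine ⟨ha2, fun b hb hab => ?_⟩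
  by_contra hnab
  have hb2 : dN H univ b = 2 := (h02 b hb).resolve_left (hall b hb)
  have hle : SimpleGraph.edge a b ≤ G := by
    intro x y h
    rw [SimpleGraph.edge_adj] at h
    rcases h.1 with ⟨rfl, rfl⟩ | ⟨rfl, rfl⟩
    · exact hab
    · exact hab.symm
  have hne : a ≠ b := hab.ne
  have hedge : ∀ x y, (SimpleGraph.edge a b).Adj x y ↔ (a = x ∧ b = y ∨ a = y ∧ b = x) ∧ x ≠ y := by
    intro x y
    rw [SimpleGraph.edge_adj]
    tauto
  have hd1 : ∀ x y, (x = a ∧ y = b) ∨ (x = b ∧ y = a) → dN (SimpleGraph.edge a b) univ x = 1 := by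
    intro x y hxy
    unfold dN
    rw [card_eq_one]
    refine ⟨y, ?_⟩
    ext u
    simp only [mem_filter, mem_univ, true_and, mem_singleton, SimpleGraph.edge_adj]
    rcases hxy with ⟨rfl, rfl⟩ | ⟨rfl, rfl⟩
    · constructor
      · rintro ⟨⟨_, h⟩ | ⟨h, _⟩, _⟩
        · exact h
        · exact absurd h hne
      · rintro rfl
        exact ⟨Or.inl ⟨rfl, rfl⟩, hne⟩
    · constructor
      · rintro ⟨⟨h, _⟩ | ⟨_, h⟩, _⟩
        · exact absurd h hne.symm
        · exact h
      · rintro rfl
        exact ⟨Or.inr ⟨rfl, rfl⟩, hne.symm⟩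
  have hK : SimpleGraph.edge a b ≤ H := by
    apply hH.absorb hle
    intro v
    by_cases hv : v = a ∨ v = b
    · have hv1 : dN (SimpleGraph.edge a b) univ v = 1 := by
        rcases hv with rfl | rfl
        · exact hd1 v b (Or.inl ⟨rfl, rfl⟩)
        · exact hd1 v a (Or.inr ⟨rfl, rfl⟩)
      have hv2 : dN H univ v = 2 := by
        rcases hv with rfl | rfl
        · exact ha2
        · exact hb2
      rw [dN_sup_disj, hv1, hv2]
      · exact Or.inr (Or.inr rfl)
      · intro u _ h h'
        rw [SimpleGraph.edge_adj] at h'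
        rcases h'.1 with ⟨rfl, rfl⟩ | ⟨rfl, rfl⟩
        · exact hnab h
        · exact hnab h.symm
    · have h0 : dN (SimpleGraph.edge a b) univ v = 0 := by
        rw [dN_eq_zero_iff]
        intro u _ h
        rw [SimpleGraph.edge_adj] at h
        rcases h.1 with ⟨rfl, rfl⟩ | ⟨rfl, rfl⟩
        · exact hv (Or.inl rfl)
        · exact hv (Or.inr rfl)
      have h1 := dN_sup_le H (SimpleGraph.edge a b) univ v
      have h2 : dN H univ v ≤ dN (H ⊔ SimpleGraph.edge a b) univ v :=
        dN_mono_graph le_sup_left univ v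
      have h3 : dN (H ⊔ SimpleGraph.edge a b) univ v = dN H univ v := by omega
      rw [h3]
      exact hH.1.deg v
  apply hnab
  apply hK
  rw [SimpleGraph.edge_adj]
  exact ⟨Or.inl ⟨rfl, rfl⟩, hne⟩

/-- such sets are equal or disjoint -/
theorem inside_disjoint {D D' : Finset V} (hD : MinGood G D) (hD' : MinGood G D')
    (h : ∀ a ∈ D, dN H univ a = 2 ∧ ∀ b ∈ D, G.Adj a b → H.Adj a b)
    (h' : ∀ a ∈ D', dN H univ a = 2 ∧ ∀ b ∈ D', G.Adj a b → H.Adj a b) (hle : H ≤ G)
    (hne : D ≠ D') : Disjoint D D' := by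
  classical
  rw [disjoint_left]
  intro w hw hw'
  have key : ∀ (E : Finset V), MinGood G E →
      (∀ a ∈ E, dN H univ a = 2 ∧ ∀ b ∈ E, G.Adj a b → H.Adj a b) →
      ∀ v ∈ E, ∀ u, H.Adj v u → u ∈ E := by
    intro E hE hE2 v hv u hu
    have e1 := hE.dN_eq v hv
    have e2 := (hE2 v hv).1
    unfold dN at e1 e2
    have hsub : E.filter (fun u => G.Adj v u) ⊆ univ.filter (fun u => H.Adj v u) := by
      intro x hx
      rw [mem_filter] at hx ⊢
      exact ⟨mem_univ _, (hE2 v hv).2 x hx.1 hx.2⟩
    have heq := eq_of_subset_of_card_le hsub (by rw [e1, e2])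
    have : u ∈ univ.filter (fun u => H.Adj v u) := by rw [mem_filter]; exact ⟨mem_univ _, hu⟩
    rw [← heq, mem_filter] at this
    exact this.1
  have hg : Good G (D ∩ D') := by
    refine ⟨⟨w, mem_inter.2 ⟨hw, hw'⟩⟩, ?_⟩
    intro v hv
    rw [mem_inter] at hv
    have e2 := (h v hv.1).1
    unfold dN at e2 ⊢
    rw [← e2]
    apply card_le_card
    intro u hu
    rw [mem_filter] at hu ⊢
    exact ⟨mem_inter.2 ⟨key D hD h v hv.1 u hu.2, key D' hD' h' v hv.2 u hu.2⟩, hle hu.2⟩
  have e1 := hD.2 _ inter_subset_left hg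
  have e2 := hD'.2 _ inter_subset_right hg
  exact hne (e1.symm.trans e2)

end

end Pool.Agent.H45.GF
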