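import Pool.Agent.H45.GF.EPb
import Pool.Agent.H45.GF.EPd
import Pool.Agent.H38.Pack

/-!
# Erdos-Posa with a constant (helper45), last part
-/

set_option autoImplicit false
set_option linter.unusedSectionVars false
set_option linter.unusedSimpArgs false
set_option linter.unusedVariables false

namespace Pool.Agent.H45.GF

open Finset Pool.Agent.H38

section
variable {V : Type*} [DecidableEq V] [Fintype V] {G H : SimpleGraph V}

theorem dN_eq_ncard (K : SimpleGraph V) (v : V) : dN K univ v = (K.neighborSet v).ncard := by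
  classical
  have h : K.neighborSet v = ((univ.filter (fun u => K.Adj v u) : Finset V) : Set V) := by
    ext u
    simp
  rw [h, Set.ncard_coe_finset]
  rfl

/-- minimal good sets which meet `H` in one vertex only are disjoint if these vertices are different -/
theorem Max23.single_disjoint (hH : Max23 G H) {D D' : Finset V} (hD : MinGood G D)
    (hD' : MinGood G D') (h3 : ∀ v ∈ D, dN H univ v ≠ 3) (h3' : ∀ v ∈ D', dN H univ v ≠ 3)
    {z z' : V} (hz : z ∈ D) (hz' : z' ∈ D') (hS : ∀ v ∈ D, dN H univ v ≠ 0 → v = z)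
    (hS' : ∀ v ∈ D', dN H univ v ≠ 0 → v = z') (hs : dN H univ z ≠ 0) (hs' : dN H univ z' ≠ 0)
    (hzz : z ≠ z') : Disjoint D D' := by
  classical
  rw [disjoint_left]
  intro w hw hw'
  set K0 : SimpleGraph V := rs G D ⊔ rs G D' with hK0
  have hK0G : K0 ≤ G := by
    intro a b h
    rw [hK0, SimpleGraph.sup_adj] at h
    rcases h with h | h
    · exact h.1
    · exact h.1
  have hreach : K0.Reachable z z' :=
    ((hD.reach hz hw).mono le_sup_left).trans ((hD'.reach hw' hz').mono le_sup_right)
  obtain ⟨p, hp⟩ := hreach.exists_isPath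
  have hnil : ¬ p.Nil := SimpleGraph.Walk.not_nil_of_ne hzz
  set K : SimpleGraph V := p.toSubgraph.spanningCoe with hK
  have hKK0 : K ≤ K0 := p.toSubgraph.spanningCoe_le
  have hKG : K ≤ G := hKK0.trans hK0G
  have hnb : ∀ v, K.neighborSet v = p.toSubgraph.neighborSet v := fun v => rfl
  have hdisj : ∀ v u, H.Adj v u → ¬ K.Adj v u := by
    intro v u h1 h2
    have h4 : dN H univ v ≠ 0 := fun h => not_adj_of_zero h u h1
    have h5 : dN H univ u ≠ 0 := fun h => not_adj_of_zero h v h1.symm
    have h6 := hKK0 h2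
    rw [hK0, SimpleGraph.sup_adj] at h6
    rcases h6 with ⟨_, h7, h8⟩ | ⟨_, h7, h8⟩
    · exact h1.ne ((hS v h7 h4).trans (hS u h8 h5).symm)
    · exact h1.ne ((hS' v h7 h4).trans (hS' u h8 h5).symm)
  have hdeg : ∀ v, v ≠ z → v ≠ z' → dN K univ v = 0 ∨ dN K univ v = 2 := by
    intro v hvz hvz'
    by_cases hv : v ∈ p.support
    · right
      rw [SimpleGraph.Walk.mem_support_iff_exists_getVert] at hv
      obtain ⟨i, rfl, hi⟩ := hv
      rw [dN_eq_ncard, hnb]
      apply hp.ncard_neighborSet_toSubgraph_internal_eq_two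
      · rintro rfl
        exact hvz (by simp)
      · apply lt_of_le_of_ne hi
        rintro rfl
        exact hvz' (by simp)
    · left
      rw [dN_eq_zero_iff]
      intro u _ h
      apply hv
      rw [← SimpleGraph.Walk.mem_verts_toSubgraph]
      exact p.toSubgraph.edge_vert h
  have hz1 : dN K univ z = 1 := by
    rw [dN_eq_ncard, hnb, hp.neighborSet_toSubgraph_startpoint hnil, Set.ncard_singleton]
  have hz1' : dN K univ z' = 1 := by
    rw [dN_eq_ncard, hnb, hp.neighborSet_toSubgraph_endpoint hnil, Set.ncard_singleton]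
  have hz2 : dN H univ z = 2 := by
    have := h3 z hz
    rcases hH.1.deg z with h | h | h
    · exact absurd h hs
    · exact h
    · exact absurd h this
  have hz2' : dN H univ z' = 2 := by
    have := h3' z' hz'
    rcases hH.1.deg z' with h | h | h
    · exact absurd h hs'
    · exact h
    · exact absurd h this
  have hKH : K ≤ H := by
    apply hH.absorb hKG
    intro v
    rw [dN_sup_disj H K univ v (fun u _ => hdisj v u)]
    by_cases hvz : v = z
    · rw [hvz, hz1, hz2]
      exact Or.inr (Or.inr rfl)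
    · by_cases hvz' : v = z'
      · rw [hvz', hz1', hz2']
        exact Or.inr (Or.inr rfl)
      · rcases hdeg v hvz hvz' with h | h
        · rw [h, add_zero]
          exact hH.1.deg v
        · have h0 : dN H univ v = 0 := by
            obtain ⟨u, _, _, _, _, ha, _⟩ := exists_two_of_two_le_dN K (le_of_eq h.symm)
            have h6 := hKK0 ha
            rw [hK0, SimpleGraph.sup_adj] at h6
            by_contra hne
            rcases h6 with ⟨_, h7, _⟩ | ⟨_, h7, _⟩
            · exact hvz (hS v h7 hne)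
            · exact hvz' (hS' v h7 hne)
          rw [h, h0]
          exact Or.inr (Or.inl rfl)
  have hadj : K.Adj z p.snd := p.toSubgraph_adj_snd hnil
  exact hdisj z p.snd (hKH hadj) hadj

theorem pack_of_family {α : Type*} {k : ℕ} (F : Finset α) (f : α → Finset V) (hk : k ≤ F.card)
    (hd : ∀ a ∈ F, Dense G (f a)) (hdis : ∀ a ∈ F, ∀ b ∈ F, a ≠ b → Disjoint (f a) (f b)) :
    Pack G univ k := by
  classical
  obtain ⟨F', hF', hc⟩ := exists_subset_card_eq hk
  let e : Fin k ≃ F' := (Finset.equivFinOfCardEq hc).symm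
  refine ⟨fun i => f (e i).1, fun i => ⟨subset_univ _, hd _ (hF' (e i).2)⟩, ?_⟩
  intro i j hij
  apply hdis _ (hF' (e i).2) _ (hF' (e j).2)
  intro h
  exact hij (e.injective (Subtype.ext h))

theorem eI_mono_graph {H G : SimpleGraph V} (h : H ≤ G) (U : Finset V) : eI H U ≤ eI G U := by
  classical
  unfold eI
  apply card_le_card
  intro e he
  rw [mem_filter] at he ⊢
  exact ⟨he.1, SimpleGraph.edgeSet_mono h he.2⟩

theorem Max23.card_three (hH : Max23 G H) {k : ℕ} (hP : ¬ Pack G univ k) :
    (univ.filter (fun v => dN H univ v = 3)).card ≤ 2 ^ (40 * k + 1) := by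
  classical
  by_contra hcon
  push Not at hcon
  set S : Finset V := univ.filter (fun v => dN H univ v ≠ 0) with hS
  have hSd : ∀ v, dN H S v = dN H univ v := by
    intro v
    unfold dN
    congr 1
    ext u
    simp only [mem_filter, mem_univ, true_and, hS]
    constructor
    · exact fun h => h.2
    · intro h
      refine ⟨fun h0 => not_adj_of_zero h0 v h.symm, h⟩
  have h1 : Pack H S k := by
    apply pack_of_many
    · intro v hv
      rw [hS, mem_filter] at hv
      rw [hSd]
      exact (hH.1.deg v).resolve_left hv.2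
    · refine lt_of_lt_of_le hcon (card_le_card ?_)
      intro v hv
      rw [mem_filter] at hv
      rw [mem_filter, hSd, hS, mem_filter]
      exact ⟨⟨mem_univ _, by rw [hv.2]; norm_num⟩, by rw [hv.2]⟩
  obtain ⟨f, hf, hd⟩ := h1
  exact hP ⟨f, fun i => ⟨subset_univ _, (hf i).2.1, (hf i).2.2.trans (eI_mono_graph hH.1.le _)⟩, hd⟩

/-- Erdos-Posa: a hitting set of bounded size -/
theorem erdos_posa (G : SimpleGraph V) (k : ℕ) (hP : ¬ Pack G univ k) :
    ∃ X : Finset V, X.card ≤ 2 ^ (40 * k + 1) + 2 * k ∧ Sparse G (univ \ X) := by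
  classical
  obtain ⟨H, hH⟩ := exists_max23 G
  set U : Finset V := univ.filter (fun v => dN H univ v = 3) with hU
  set Z : Finset V := univ.filter (fun z => ∃ D, MinGood G D ∧ (∀ v ∈ D, dN H univ v ≠ 3) ∧ z ∈ D ∧
    dN H univ z ≠ 0 ∧ ∀ v ∈ D, dN H univ v ≠ 0 → v = z) with hZ
  set F : Finset (Finset V) := univ.filter (fun D => MinGood G D ∧
    ∀ a ∈ D, dN H univ a = 2 ∧ ∀ b ∈ D, G.Adj a b → H.Adj a b) with hF
  set R : Finset V := F.biUnion (fun D => if h : D.Nonempty then {h.choose} else ∅) with hR
  have hUc : U.card ≤ 2 ^ (40 * k + 1) := hH.card_three hP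
  have hZc : Z.card ≤ k := by
    by_contra hcon
    push Not at hcon
    have hex : ∀ z, ∃ D : Finset V, z ∈ Z → (MinGood G D ∧ (∀ v ∈ D, dN H univ v ≠ 3) ∧ z ∈ D ∧
        dN H univ z ≠ 0 ∧ ∀ v ∈ D, dN H univ v ≠ 0 → v = z) := by
      intro z
      by_cases hz : z ∈ Z
      · have hz' := hz
        rw [hZ, mem_filter] at hz'
        obtain ⟨D, hD⟩ := hz'.2
        exact ⟨D, fun _ => hD⟩
      · exact ⟨∅, fun h => absurd h hz⟩
    choose f hf using hex
    apply hP
    apply pack_of_family Z f hcon.le
    · intro a ha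
      exact (hf a ha).1.1.dense
    · intro a ha b hb hab
      obtain ⟨a1, a2, a3, a4, a5⟩ := hf a ha
      obtain ⟨b1, b2, b3, b4, b5⟩ := hf b hb
      exact hH.single_disjoint a1 b1 a2 b2 a3 b3 a5 b5 a4 b4 hab
  have hFc : F.card ≤ k := by
    by_contra hcon
    push Not at hcon
    apply hP
    apply pack_of_family F id hcon.le
    · intro D hD
      rw [hF, mem_filter] at hD
      exact hD.2.1.1.dense
    · intro D hD D' hD' hne
      rw [hF, mem_filter] at hD hD'
      exact inside_disjoint hD.2.1 hD'.2.1 hD.2.2 hD'.2.2 hH.1.le hne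
  have hRc : R.card ≤ k := by
    refine le_trans (card_biUnion_le_card_mul _ _ 1 ?_) (by rw [mul_one]; exact hFc)
    intro D _
    split_ifs
    · exact le_of_eq (card_singleton _)
    · simp
  refine ⟨U ∪ Z ∪ R, ?_, ?_⟩
  · have h1 := card_union_le (U ∪ Z) R
    have h2 := card_union_le U Z
    omega
  · rw [sparse_iff_no_dense]
    intro E hE hd
    obtain ⟨D1, hD1, hg⟩ := hd.exists_good
    obtain ⟨D, hDD, hD⟩ := exists_minGood D1.card D1 rfl hg
    have hDX : ∀ v ∈ D, v ∉ U ∪ Z ∪ R := by
      intro v hv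
      have := hE (hD1 (hDD hv))
      rw [mem_sdiff] at this
      exact this.2
    have h3 : ∀ v ∈ D, dN H univ v ≠ 3 := by
      intro v hv h
      apply hDX v hv
      apply mem_union_left
      apply mem_union_left
      rw [hU, mem_filter]
      exact ⟨mem_univ _, h⟩
    obtain ⟨z, hz, hz0⟩ := hH.meets hD
    by_cases hone : ∀ v ∈ D, dN H univ v ≠ 0 → v = z
    · apply hDX z hz
      apply mem_union_left
      apply mem_union_right
      rw [hZ, mem_filter]
      exact ⟨mem_univ _, D, hD, h3, hz, hz0, hone⟩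
    · push Not at hone
      obtain ⟨z', hz', hz0', hne⟩ := hone
      have hin := hH.inside hD h3 hz hz' hne.symm hz0 hz0'
      have hDF : D ∈ F := by
        rw [hF, mem_filter]
        exact ⟨mem_univ _, hD, hin⟩
      have hDne : D.Nonempty := ⟨z, hz⟩
      apply hDX hDne.choose hDne.choose_spec
      apply mem_union_right
      rw [hR, mem_biUnion]
      refine ⟨D, hDF, ?_⟩
      rw [dif_pos hDne]
      exact mem_singleton_self _

end

end Pool.Agent.H45.GF
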