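import Pool.Agent.H38.Interface
import Pool.Agent.H38.Dist

/-!
# MP_f50317_co, girth 1, 2 mod 4: the caterpillar with `k - 1` hubs (helper45)

Vertices `inr (i, t)`, `t < l`: the `i`-th block, a path with centre `inr (i, 0)`; its last vertex is adjacent to
the hub `inl (i % h)`; consecutive centres are adjacent.
-/

set_option autoImplicit false
set_option linter.unusedSectionVars false
set_option linter.unusedVariables false

namespace Pool.Agent.H45.GF.Many

open Finset Pool.Agent.H38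

/-- vertices of the infinite graph -/
abbrev Vx := ℕ ⊕ ℕ × ℕ

/-- hubs -/
abbrev hb (x : ℕ) : Vx := Sum.inl x

/-- block vertices -/
abbrev bl (i t : ℕ) : Vx := Sum.inr (i, t)

/-- next vertex on the way to the hub -/
def nx (h l i t : ℕ) : Vx := if t + 1 < l then bl i (t + 1) else hb (i % h)

/-- directed edges -/
def rel (h l : ℕ) (u v : Vx) : Prop :=
  (∃ i t, t < l ∧ u = bl i t ∧ v = nx h l i t) ∨ ∃ i, u = bl i 0 ∧ v = bl (i + 1) 0

/-- the infinite graph -/
def gr (h l : ℕ) : SimpleGraph Vx := SimpleGraph.fromRel (rel h l)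

variable {h l : ℕ}

theorem nx_bl {i t i' t' : ℕ} (e : nx h l i t = bl i' t') : t + 1 < l ∧ i' = i ∧ t' = t + 1 := by
  unfold nx at e
  split_ifs at e with h1
  · simp only [bl, Sum.inr.injEq, Prod.mk.injEq] at e
    exact ⟨h1, e.1.symm, e.2.symm⟩

theorem nx_hb {i t x : ℕ} (e : nx h l i t = hb x) : l ≤ t + 1 ∧ x = i % h := by
  unfold nx at e
  split_ifs at e with h1
  · simp only [hb, Sum.inl.injEq] at e
    exact ⟨by omega, e.symm⟩

theorem adj_bl {i t : ℕ} {w : Vx} (ha : (gr h l).Adj (bl i t) w) :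
    (w = nx h l i t ∧ t < l) ∨ (∃ s, t = s + 1 ∧ t < l ∧ w = bl i s) ∨ (t = 0 ∧ w = bl (i + 1) 0) ∨
      (t = 0 ∧ ∃ j, i = j + 1 ∧ w = bl j 0) := by
  rcases ha.2 with h1 | h1
  · rcases h1 with ⟨i', t', ht', e1, e2⟩ | ⟨i', e1, e2⟩
    · simp only [bl, Sum.inr.injEq, Prod.mk.injEq] at e1
      obtain ⟨rfl, rfl⟩ := e1
      exact Or.inl ⟨e2, ht'⟩
    · simp only [bl, Sum.inr.injEq, Prod.mk.injEq] at e1
      obtain ⟨rfl, rfl⟩ := e1
      exact Or.inr (Or.inr (Or.inl ⟨rfl, e2⟩))
  · rcases h1 with ⟨i', t', ht', e1, e2⟩ | ⟨i', e1, e2⟩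
    · obtain ⟨h3, h4, h5⟩ := nx_bl e2.symm
      subst h4
      exact Or.inr (Or.inl ⟨t', h5, by omega, e1⟩)
    · simp only [bl, Sum.inr.injEq, Prod.mk.injEq] at e2
      obtain ⟨rfl, rfl⟩ := e2
      exact Or.inr (Or.inr (Or.inr ⟨rfl, i', rfl, e1⟩))

theorem adj_hb {x : ℕ} {w : Vx} (ha : (gr h l).Adj (hb x) w) :
    ∃ i, 1 ≤ l ∧ w = bl i (l - 1) ∧ i % h = x := by
  rcases ha.2 with h1 | h1
  · rcases h1 with ⟨i', t', ht', e1, e2⟩ | ⟨i', e1, e2⟩
    · simp [hb, bl] at e1
    · simp [hb, bl] at e1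
  · rcases h1 with ⟨i', t', ht', e1, e2⟩ | ⟨i', e1, e2⟩
    · obtain ⟨h3, h4⟩ := nx_hb e2.symm
      exact ⟨i', by omega, by rw [e1, show t' = l - 1 by omega], h4.symm⟩
    · simp [hb, bl] at e2

section good
variable {D : Finset Vx} (hD : Good (gr h l) D)
include hD

theorem g1 {i t : ℕ} (hv : bl i (t + 1) ∈ D) :
    t + 1 < l ∧ bl i t ∈ D ∧ nx h l i (t + 1) ∈ D := by
  obtain ⟨w1, hw1, w2, hw2, hne, a1, a2⟩ := exists_two_of_two_le_dN _ (hD.2 _ hv)
  rcases adj_bl a1 with ⟨e1, h1⟩ | ⟨s1, h1, h1', e1⟩ | ⟨h1, _⟩ | ⟨h1, _⟩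
  · rcases adj_bl a2 with ⟨e2, h2⟩ | ⟨s2, h2, h2', e2⟩ | ⟨h2, _⟩ | ⟨h2, _⟩
    · exact absurd (e1.trans e2.symm) hne
    · obtain rfl : s2 = t := by omega
      exact ⟨h1, e2 ▸ hw2, e1 ▸ hw1⟩
    · omega
    · omega
  · obtain rfl : s1 = t := by omega
    rcases adj_bl a2 with ⟨e2, h2⟩ | ⟨s2, h2, h2', e2⟩ | ⟨h2, _⟩ | ⟨h2, _⟩
    · exact ⟨h1', e1 ▸ hw1, e2 ▸ hw2⟩
    · obtain rfl : s2 = s1 := by omega
      exact absurd (e1.trans e2.symm) hne
    · omega
    · omega
  · omega
  · omega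

theorem g1' {i : ℕ} : ∀ t, bl i t ∈ D → ∀ s ≤ t, bl i s ∈ D := by
  intro t
  induction t with
  | zero =>
    intro hv s hs
    obtain rfl : s = 0 := by omega
    exact hv
  | succ t ih =>
    intro hv s hs
    rcases Nat.lt_or_ge s (t + 1) with h1 | h1
    · exact ih (g1 hD hv).2.1 s (by omega)
    · obtain rfl : s = t + 1 := by omega
      exact hv

/-- the whole block and its hub -/
theorem g3 (hl : 1 ≤ l) {i : ℕ} (h0 : bl i 0 ∈ D) (h1 : nx h l i 0 ∈ D) :
    (∀ t < l, bl i t ∈ D) ∧ hb (i % h) ∈ D := by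
  have hnx : ∀ t < l, nx h l i t ∈ D := by
    intro t
    induction t with
    | zero => intro _; exact h1
    | succ t ih =>
      intro ht
      have h2 := ih (by omega)
      unfold nx at h2
      rw [if_pos ht] at h2
      exact (g1 hD h2).2.2
  constructor
  · intro t ht
    rcases Nat.eq_zero_or_pos t with h2 | h2
    · subst h2; exact h0
    · obtain ⟨s, rfl⟩ : ∃ s, t = s + 1 := ⟨t - 1, by omega⟩
      have h3 := hnx s (by omega)
      unfold nx at h3
      rwa [if_pos ht] at h3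
  · have h3 := hnx (l - 1) (by omega)
    unfold nx at h3
    rwa [if_neg (by omega)] at h3

theorem g5 {x : ℕ} (hx : hb x ∈ D) : ∃ i i' : ℕ, i ≠ i' ∧ i % h = x ∧ i' % h = x ∧
    (∀ t < l, bl i t ∈ D) ∧ ∀ t < l, bl i' t ∈ D := by
  obtain ⟨w1, hw1, w2, hw2, hne, a1, a2⟩ := exists_two_of_two_le_dN _ (hD.2 _ hx)
  obtain ⟨i, h1, e1, h2⟩ := adj_hb a1
  obtain ⟨i', h1', e1', h2'⟩ := adj_hb a2
  refine ⟨i, i', ?_, h2, h2', ?_, ?_⟩
  · rintro rfl
    exact hne (e1.trans e1'.symm)
  · intro t ht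
    exact g1' hD _ (e1 ▸ hw1) t (by omega)
  · intro t ht
    exact g1' hD _ (e1' ▸ hw2) t (by omega)

/-- another full block at the same hub -/
theorem g6 {i : ℕ} (hx : hb (i % h) ∈ D) : ∃ i' : ℕ, i' ≠ i ∧ i' % h = i % h ∧
    ∀ t < l, bl i' t ∈ D := by
  obtain ⟨a, b, hab, ha, hb', h1, h2⟩ := g5 hD hx
  by_cases h3 : a = i
  · exact ⟨b, fun h4 => hab (h3.trans h4.symm), hb', h2⟩
  · exact ⟨a, h3, ha, h1⟩

theorem g7 (hl : 1 ≤ l) : ∃ i, bl i 0 ∈ D := by
  obtain ⟨v, hv⟩ := hD.1
  rcases v with x | ⟨i, t⟩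
  · obtain ⟨i, _, _, _, _, h1, _⟩ := g5 hD hv
    exact ⟨i, h1 0 (by omega)⟩
  · exact ⟨i, g1' hD t hv 0 (Nat.zero_le _)⟩

/-- size of good sets and hubs in good sets -/
theorem good_card (hl : 1 ≤ l) (hh : 1 ≤ h) :
    (2 * l + h ≤ D.card ∨ 4 * l + 2 ≤ D.card) ∧ ∃ x < h, hb x ∈ D := by
  classical
  have hex := g7 hD hl
  set a := Nat.find hex with ha
  have ha0 : bl a 0 ∈ D := Nat.find_spec hex
  have hmin : ∀ i, bl i 0 ∈ D → a ≤ i := fun i hi => Nat.find_min' hex hi
  -- the first block is full and the next centre is in `D`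
  have hafull : ((∀ t < l, bl a t ∈ D) ∧ hb (a % h) ∈ D) ∧ bl (a + 1) 0 ∈ D := by
    obtain ⟨w1, hw1, w2, hw2, hne, a1, a2⟩ := exists_two_of_two_le_dN _ (hD.2 _ ha0)
    have key : ∀ w ∈ D, (gr h l).Adj (bl a 0) w → w = nx h l a 0 ∨ w = bl (a + 1) 0 := by
      intro w hw haw
      rcases adj_bl haw with ⟨e1, _⟩ | ⟨s1, h1, _⟩ | ⟨_, e1⟩ | ⟨_, j, hj, e1⟩
      · exact Or.inl e1
      · omega
      · exact Or.inr e1
      · have := hmin j (e1 ▸ hw)
        omega
    rcases key w1 hw1 a1 with e1 | e1 <;> rcases key w2 hw2 a2 with e2 | e2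
    · exact absurd (e1.trans e2.symm) hne
    · exact ⟨g3 hD hl ha0 (e1 ▸ hw1), e2 ▸ hw2⟩
    · exact ⟨g3 hD hl ha0 (e2 ▸ hw2), e1 ▸ hw1⟩
    · exact absurd (e1.trans e2.symm) hne
  obtain ⟨⟨hat, hah⟩, ha1⟩ := hafull
  -- the end of the first run
  have hstop : ∃ j, bl (a + 1 + j + 1) 0 ∉ D := by
    by_contra hcon
    push Not at hcon
    have hinj : Function.Injective (fun j : ℕ => bl (a + 1 + j + 1) 0) := by
      intro x y hxy
      simp only [bl, Sum.inr.injEq, Prod.mk.injEq] at hxy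
      omega
    have hsub : ((range (D.card + 1)).image (fun j : ℕ => bl (a + 1 + j + 1) 0)) ⊆ D := by
      intro z hz
      rw [mem_image] at hz
      obtain ⟨j, _, rfl⟩ := hz
      exact hcon j
    have := card_le_card hsub
    rw [card_image_of_injective _ hinj, card_range] at this
    omega
  set j0 := Nat.find hstop with hj0
  have hj0s : bl (a + 1 + j0 + 1) 0 ∉ D := Nat.find_spec hstop
  have hj0m : ∀ j < j0, bl (a + 1 + j + 1) 0 ∈ D := by
    intro j hj
    have := Nat.find_min hstop hj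
    exact not_not.1 this
  set b := a + 1 + j0 with hb0
  have hrun : ∀ i, a ≤ i → i ≤ b → bl i 0 ∈ D := by
    intro i h1 h2
    rcases Nat.eq_or_lt_of_le h1 with h3 | h3
    · rw [← h3]; exact ha0
    · rcases Nat.eq_or_lt_of_le h3 with h4 | h4
      · rw [← h4]; exact ha1
      · have := hj0m (i - (a + 2)) (by omega)
        rwa [show a + 1 + (i - (a + 2)) + 1 = i by omega] at this
  have hb0' : bl b 0 ∈ D := hrun b (by omega) le_rfl
  have hbfull : (∀ t < l, bl b t ∈ D) ∧ hb (b % h) ∈ D := by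
    obtain ⟨w1, hw1, w2, hw2, hne, a1, a2⟩ := exists_two_of_two_le_dN _ (hD.2 _ hb0')
    have key : ∀ w ∈ D, (gr h l).Adj (bl b 0) w → w = nx h l b 0 ∨ w = bl (a + j0) 0 := by
      intro w hw haw
      rcases adj_bl haw with ⟨e1, _⟩ | ⟨s1, h1, _⟩ | ⟨_, e1⟩ | ⟨_, j, hj, e1⟩
      · exact Or.inl e1
      · omega
      · exact absurd (e1 ▸ hw) hj0s
      · right
        rw [e1, show j = a + j0 by omega]
    rcases key w1 hw1 a1 with e1 | e1 <;> rcases key w2 hw2 a2 with e2 | e2
    · exact absurd (e1.trans e2.symm) hne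
    · exact g3 hD hl hb0' (e1 ▸ hw1)
    · exact g3 hD hl hb0' (e2 ▸ hw2)
    · exact absurd (e1.trans e2.symm) hne
  obtain ⟨hbt, hbh⟩ := hbfull
  refine ⟨?_, a % h, Nat.mod_lt _ (by omega), hah⟩
  by_cases hlong : a + h ≤ b
  · left
    -- centres a..a+h, the rest of the blocks a and b, one hub
    let f1 : ℕ → Vx := fun i => bl (a + i) 0
    let f2 : ℕ → Vx := fun t => bl a (t + 1)
    let f3 : ℕ → Vx := fun t => bl b (t + 1)
    set S1 := (range (h + 1)).image f1 with hS1
    set S2 := (range (l - 1)).image f2 with hS2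
    set S3 := (range (l - 1)).image f3 with hS3
    have c1 : S1.card = h + 1 := by
      rw [hS1, card_image_of_injective, card_range]
      intro x y hxy
      simp only [f1, bl, Sum.inr.injEq, Prod.mk.injEq] at hxy
      omega
    have c2 : S2.card = l - 1 := by
      rw [hS2, card_image_of_injective, card_range]
      intro x y hxy
      simp only [f2, bl, Sum.inr.injEq, Prod.mk.injEq] at hxy
      omega
    have c3 : S3.card = l - 1 := by
      rw [hS3, card_image_of_injective, card_range]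
      intro x y hxy
      simp only [f3, bl, Sum.inr.injEq, Prod.mk.injEq] at hxy
      omega
    have d12 : Disjoint S1 S2 := by
      rw [disjoint_left]
      intro z hz hz'
      rw [hS1, mem_image] at hz
      rw [hS2, mem_image] at hz'
      obtain ⟨x, _, rfl⟩ := hz
      obtain ⟨y, _, hy⟩ := hz'
      simp only [f1, f2, bl, Sum.inr.injEq, Prod.mk.injEq] at hy
      omega
    have d3 : Disjoint (S1 ∪ S2) S3 := by
      rw [disjoint_left]
      intro z hz hz'
      rw [hS3, mem_image] at hz'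
      obtain ⟨y, _, rfl⟩ := hz'
      rw [mem_union, hS1, hS2, mem_image, mem_image] at hz
      rcases hz with ⟨x, _, hx⟩ | ⟨x, _, hx⟩
      · simp only [f1, f3, bl, Sum.inr.injEq, Prod.mk.injEq] at hx
        omega
      · simp only [f2, f3, bl, Sum.inr.injEq, Prod.mk.injEq] at hx
        omega
    have d4 : hb (a % h) ∉ S1 ∪ S2 ∪ S3 := by
      intro hz
      rw [mem_union, mem_union, hS1, hS2, hS3, mem_image, mem_image, mem_image] at hz
      rcases hz with (⟨x, _, hx⟩ | ⟨x, _, hx⟩) | ⟨x, _, hx⟩ <;>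
        simp [f1, f2, f3, bl, hb] at hx
    have hsub : insert (hb (a % h)) (S1 ∪ S2 ∪ S3) ⊆ D := by
      intro z hz
      rw [mem_insert, mem_union, mem_union, hS1, hS2, hS3, mem_image, mem_image, mem_image] at hz
      rcases hz with rfl | (⟨x, hx, rfl⟩ | ⟨x, hx, rfl⟩) | ⟨x, hx, rfl⟩
      · exact hah
      · rw [mem_range] at hx
        exact hrun _ (by omega) (by omega)
      · rw [mem_range] at hx
        exact hat _ (by omega)
      · rw [mem_range] at hx
        exact hbt _ (by omega)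
    have := card_le_card hsub
    rw [card_insert_of_notMem d4, card_union_of_disjoint d3, card_union_of_disjoint d12, c1, c2,
      c3] at this
    omega
  · right
    have hab : a < b := by omega
    have hmod : ∀ i i', a ≤ i → i < i' → i' ≤ b → i % h ≠ i' % h := by
      intro i i' h1 h2 h3 h4
      have h5 := Nat.div_add_mod i h
      have h6 := Nat.div_add_mod i' h
      have h7 : h * (i / h) < h * (i' / h) := by omega
      have h8 : i / h < i' / h := Nat.lt_of_mul_lt_mul_left h7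
      have h9 : h * (i / h + 1) ≤ h * (i' / h) := Nat.mul_le_mul_left _ h8
      rw [mul_add, mul_one] at h9
      omega
    obtain ⟨i, hi1, hi2, hit⟩ := g6 hD hah
    obtain ⟨i', hi1', hi2', hit'⟩ := g6 hD hbh
    have hia := hmin i (hit 0 (by omega))
    have hia' := hmin i' (hit' 0 (by omega))
    have hib : b < i := by
      by_contra hc
      exact hmod a i le_rfl (by omega) (by omega) hi2.symm
    have hib' : b < i' := by
      by_contra hc
      exact hmod i' b hia' (by omega) le_rfl hi2'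
    have hii : i ≠ i' := by
      rintro rfl
      exact hmod a b le_rfl hab le_rfl (hi2.symm.trans hi2')
    have hhub : a % h ≠ b % h := hmod a b le_rfl hab le_rfl
    let f : ℕ × ℕ → Vx := fun q => bl q.1 q.2
    set S := (({a, b, i, i'} : Finset ℕ) ×ˢ range l).image f with hS
    have hc4 : ({a, b, i, i'} : Finset ℕ).card = 4 := by
      rw [card_insert_of_notMem, card_insert_of_notMem, card_pair hii]
      · simp only [mem_insert, mem_singleton]
        omega
      · simp only [mem_insert, mem_singleton]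
        omega
    have cS : S.card = 4 * l := by
      rw [hS, card_image_of_injective, card_product, hc4, card_range]
      rintro ⟨x1, x2⟩ ⟨y1, y2⟩ hxy
      simp only [f, bl, Sum.inr.injEq] at hxy
      exact hxy
    have d5 : Disjoint S ({hb (a % h), hb (b % h)} : Finset Vx) := by
      rw [disjoint_left]
      intro z hz hz'
      rw [hS, mem_image] at hz
      obtain ⟨q, _, rfl⟩ := hz
      simp [f, bl, hb] at hz'
    have hsub : S ∪ ({hb (a % h), hb (b % h)} : Finset Vx) ⊆ D := by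
      intro z hz
      rw [mem_union, hS, mem_image, mem_insert, mem_singleton] at hz
      rcases hz with ⟨⟨x, t⟩, hq, rfl⟩ | rfl | rfl
      · rw [mem_product, mem_range] at hq
        simp only [mem_insert, mem_singleton] at hq
        rcases hq.1 with rfl | rfl | rfl | rfl
        · exact hat t hq.2
        · exact hbt t hq.2
        · exact hit t hq.2
        · exact hit' t hq.2
      · exact hah
      · exact hbh
    have := card_le_card hsub
    rw [card_union_of_disjoint d5, cS, card_pair (by simpa [hb] using hhub)] at this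
    omega

end good

end Pool.Agent.H45.GF.Many
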