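import Pool.Agent.H45.GF.Many

/-!
# MP_f50317_co, girth 1, 2 mod 4: the caterpillar on `Fin n` (helper45)
-/

set_option autoImplicit false
set_option linter.unusedSectionVars false
set_option linter.unusedVariables false

namespace Pool.Agent.H45.GF

open Finset Pool.Agent.H38

section transfer
variable {V V' : Type*} [DecidableEq V] [DecidableEq V'] (φ : V ↪ V') (G' : SimpleGraph V')

theorem dN_comap (D : Finset V) (v : V) :
    dN G' (D.map φ) (φ v) = dN (G'.comap φ) D v := by
  classical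
  unfold dN
  rw [← card_map φ]
  congr 1
  ext u
  simp only [mem_filter, mem_map, SimpleGraph.comap_adj]
  constructor
  · rintro ⟨⟨x, hx, rfl⟩, h⟩
    exact ⟨x, ⟨hx, h⟩, rfl⟩
  · rintro ⟨x, ⟨hx, h⟩, rfl⟩
    exact ⟨⟨x, hx, rfl⟩, h⟩

theorem good_comap {D : Finset V} (h : Good (G'.comap φ) D) : Good G' (D.map φ) := by
  refine ⟨h.1.map, ?_⟩
  intro w hw
  rw [mem_map] at hw
  obtain ⟨v, hv, rfl⟩ := hw
  rw [dN_comap]
  exact h.2 v hv

theorem eI_comap (D : Finset V) : eI G' (D.map φ) = eI (G'.comap φ) D := by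
  have h1 := sum_dN G' (D.map φ)
  have h2 := sum_dN (G'.comap φ) D
  rw [sum_map] at h1
  simp only [dN_comap] at h1
  omega

end transfer

namespace Many

/-- vertices of the finite graph -/
def Rs (m l h' : ℕ) : Finset Vx := (range h').image hb ∪ (range m ×ˢ range l).image
  (fun q => bl q.1 q.2)

theorem card_Rs (m l h' : ℕ) : (Rs m l h').card = h' + m * l := by
  unfold Rs
  rw [card_union_of_disjoint, card_image_of_injective, card_image_of_injective, card_product,
    card_range, card_range, card_range]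
  · rintro ⟨x1, x2⟩ ⟨y1, y2⟩ hxy
    simp only [bl, Sum.inr.injEq] at hxy
    exact hxy
  · intro x y hxy
    simpa [hb] using hxy
  · rw [disjoint_left]
    intro z hz hz'
    rw [mem_image] at hz hz'
    obtain ⟨x, _, rfl⟩ := hz
    obtain ⟨q, _, hq⟩ := hz'
    simp [bl, hb] at hq

theorem hb_mem {m l h' x : ℕ} (hx : x < h') : hb x ∈ Rs m l h' := by
  unfold Rs
  exact mem_union_left _ (mem_image_of_mem _ (mem_range.2 hx))

theorem bl_mem {m l h' i t : ℕ} (hi : i < m) (ht : t < l) : bl i t ∈ Rs m l h' := by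
  unfold Rs
  exact mem_union_right _ (mem_image.2 ⟨(i, t), by rw [mem_product, mem_range, mem_range]; exact ⟨hi, ht⟩, rfl⟩)

theorem nx_mem {m l h h' i t : ℕ} (hh : 1 ≤ h) (hh' : h ≤ h') (hi : i < m) (ht : t < l) :
    nx h l i t ∈ Rs m l h' := by
  unfold nx
  split_ifs with h1
  · exact bl_mem hi h1
  · exact hb_mem (lt_of_lt_of_le (Nat.mod_lt _ (by omega)) hh')

theorem adj_nx {h l i t : ℕ} (ht : t < l) : (gr h l).Adj (bl i t) (nx h l i t) := by
  refine ⟨?_, Or.inl (Or.inl ⟨i, t, ht, rfl, rfl⟩)⟩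
  intro e
  have := nx_bl e.symm
  omega

theorem adj_succ {h l i : ℕ} : (gr h l).Adj (bl i 0) (bl (i + 1) 0) := by
  refine ⟨?_, Or.inl (Or.inr ⟨i, rfl, rfl⟩)⟩
  simp [bl]

theorem eI_ge {m l h h' : ℕ} (hh : 1 ≤ h) (hl : 1 ≤ l) (hh' : h ≤ h') :
    m * l + (m - 1) ≤ eI (gr h l) (Rs m l h') := by
  classical
  set E1 : Finset (Sym2 Vx) := (range m ×ˢ range l).image
    (fun q => s(bl q.1 q.2, nx h l q.1 q.2)) with hE1
  set E2 : Finset (Sym2 Vx) := (range (m - 1)).image (fun i => s(bl i 0, bl (i + 1) 0)) with hE2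
  have c1 : E1.card = m * l := by
    rw [hE1, card_image_of_injective, card_product, card_range, card_range]
    rintro ⟨i, t⟩ ⟨i', t'⟩ h1
    rw [Sym2.eq_iff] at h1
    rcases h1 with ⟨h1, _⟩ | ⟨h1, h2⟩
    · simpa [bl] using h1
    · have h3 := nx_bl h1.symm
      have h4 := nx_bl h2
      simp only at h3 h4
      omega
  have c2 : E2.card = m - 1 := by
    rw [hE2, card_image_of_injective, card_range]
    intro i i' h1
    simp only at h1
    rw [Sym2.eq_iff] at h1
    rcases h1 with ⟨h1, _⟩ | ⟨h1, h2⟩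
    · simpa [bl] using h1
    · simp only [bl, Sum.inr.injEq, Prod.mk.injEq] at h1 h2
      omega
  have d12 : Disjoint E1 E2 := by
    rw [disjoint_left]
    intro z hz hz'
    rw [hE1, mem_image] at hz
    rw [hE2, mem_image] at hz'
    obtain ⟨⟨i, t⟩, hq, rfl⟩ := hz
    obtain ⟨j, _, hj⟩ := hz'
    rw [Sym2.eq_iff] at hj
    rcases hj with ⟨_, h2⟩ | ⟨h2, _⟩
    · have := nx_bl h2.symm
      simp only at this
      omega
    · have := nx_bl h2.symm
      simp only at this
      omega
  unfold eI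
  rw [← c1, ← c2, ← card_union_of_disjoint d12]
  apply card_le_card
  intro z hz
  rw [mem_union, hE1, hE2, mem_image, mem_image] at hz
  rw [mem_filter]
  rcases hz with ⟨⟨i, t⟩, hq, rfl⟩ | ⟨i, hi, rfl⟩
  · rw [mem_product, mem_range, mem_range] at hq
    refine ⟨?_, adj_nx hq.2⟩
    rw [mk_mem_sym2_iff]
    exact ⟨bl_mem hq.1 hq.2, nx_mem hh hh' hq.1 hq.2⟩
  · rw [mem_range] at hi
    refine ⟨?_, adj_succ⟩
    rw [mk_mem_sym2_iff]
    exact ⟨bl_mem (by omega) (by omega), bl_mem (by omega) (by omega)⟩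

/-- the lower bound for many disjoint cycles -/
theorem lower_many {k l g : ℕ} (hk : 2 ≤ k) (hl : 1 ≤ l) (hg1 : g ≤ 4 * l + 2)
    (hg2 : g ≤ 2 * l + (k - 1)) (n : ℕ) :
    ∃ G : SimpleGraph (Fin n), ¬ HasDisjointCycles G k ∧ (g : ℕ∞) ≤ G.egirth ∧
      (l + 1) * n ≤ l * G.edgeSet.ncard + ((l + 1) * (k - 1 + l) + l) := by
  classical
  set h := k - 1 with hh
  have hh1 : 1 ≤ h := by omega
  set m := (n - h) / l with hm
  set h' := n - m * l with hh'
  have hml : m * l ≤ n - h := Nat.div_mul_le_self _ _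
  have hcard : (Rs m l h').card = n := by
    rw [card_Rs]
    omega
  let e : (Rs m l h') ≃ Fin n := Finset.equivFinOfCardEq hcard
  let φ : Fin n ↪ Vx := e.symm.toEmbedding.trans (Function.Embedding.subtype _)
  have hmap : (univ : Finset (Fin n)).map φ = Rs m l h' := by
    ext z
    rw [mem_map]
    constructor
    · rintro ⟨x, _, rfl⟩
      exact (e.symm x).2
    · intro hz
      exact ⟨e ⟨z, hz⟩, mem_univ _, by simp [φ]⟩
  refine ⟨(gr h l).comap φ, ?_, ?_, ?_⟩
  · rw [← pack_iff]
    rintro ⟨f, hf, hd⟩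
    choose D hD hDg using fun i => (hf i).2.exists_good
    choose x hx hxD using fun i => (good_card (good_comap φ (gr h l) (hDg i)) hl hh1).2
    have hinj : Function.Injective (fun i => (⟨x i, hx i⟩ : Fin h)) := by
      intro i j hij
      by_contra hne
      have e1 : x i = x j := by simpa using hij
      have h1 := hxD i
      have h2 := hxD j
      rw [mem_map] at h1 h2
      obtain ⟨v, hv, hv'⟩ := h1
      obtain ⟨w, hw, hw'⟩ := h2
      have h3 : v = w := φ.injective (by rw [hv', hw', e1])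
      subst h3
      exact (disjoint_left.1 (hd i j hne)) (hD i hv) (hD j hw)
    have := Fintype.card_le_of_injective _ hinj
    rw [Fintype.card_fin, Fintype.card_fin] at this
    omega
  · rw [egirth_iff]
    intro U hU hd
    obtain ⟨D, hD, hg⟩ := hd.exists_good
    have h1 := (good_card (good_comap φ (gr h l) hg) hl hh1).1
    rw [card_map] at h1
    have h2 := card_le_card hD
    omega
  · rw [← eI_univ_eq, ← eI_comap, hmap]
    by_cases hnh : h ≤ n
    · have h1 := eI_ge (m := m) hh1 hl (show h ≤ h' by omega)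
      have h2 : n - h = l * m + (n - h) % l := (Nat.div_add_mod _ _).symm
      have h3 : (n - h) % l < l := Nat.mod_lt _ (by omega)
      have h4 : n = h + l * m + (n - h) % l := by omega
      set p := (n - h) % l with hp
      have h5 := Nat.mul_le_mul_left l h1
      rcases Nat.eq_zero_or_pos m with h0 | h0
      · rw [h0, mul_zero, add_zero] at h4
        have h6 : (l + 1) * n ≤ (l + 1) * (h + l) := Nat.mul_le_mul_left _ (by omega)
        omega
      · obtain ⟨m', hm'⟩ : ∃ m', m = m' + 1 := ⟨m - 1, by omega⟩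
        rw [hm', Nat.add_sub_cancel] at h5
        rw [hm'] at h4
        have h6 : (l + 1) * p ≤ (l + 1) * l := Nat.mul_le_mul_left _ h3.le
        rw [hm']
        rw [h4]
        nlinarith
    · have h6 : (l + 1) * n ≤ (l + 1) * (h + l) := Nat.mul_le_mul_left _ (by omega)
      omega

end Many

end Pool.Agent.H45.GF
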