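import Pool.Agent.H38.Dist

/-!
# MP_f50317_co, girth 1, 2 mod 4: rooted structure of a tree (helper45)
-/

set_option autoImplicit false
set_option linter.unusedSectionVars false
set_option linter.unusedVariables false

namespace Pool.Agent.H45.GF

open Finset Pool.Agent.H38

/-- parent and depth functions for the tree on `T` with root `ρ` -/
structure Rooted {V : Type*} (T : Finset V) (ρ : V) (par : V → V) (dep : V → ℕ) : Prop where
  root_mem : ρ ∈ T
  par_mem : ∀ v ∈ T, par v ∈ T
  dep_root : dep ρ = 0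
  dep_par : ∀ v ∈ T, v ≠ ρ → dep v = dep (par v) + 1

section
variable {V : Type*} [DecidableEq V] {G : SimpleGraph V}

theorem exists_leaf_ne {W T : Finset V} {ρ : V} (hW : Sparse G W) (hT : T ⊆ W)
    (hs : IsSub G T) (hρ : ρ ∈ T) (hne : T ≠ {ρ}) : ∃ v ∈ T, v ≠ ρ ∧ dN G T v ≤ 1 := by
  classical
  by_contra hcon
  push Not at hcon
  have h1 := sum_dN G T
  have h2 := hs.eI_eq hW hT
  obtain ⟨u, hu, hau⟩ := hs.exists_adj hW hT hρ hne
  have h3 : 1 ≤ dN G T ρ := by
    unfold dN
    exact card_pos.mpr ⟨u, mem_filter.mpr ⟨hu, hau⟩⟩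
  rw [← add_sum_erase T _ hρ] at h1
  have h4 : ∑ v ∈ T.erase ρ, 2 ≤ ∑ v ∈ T.erase ρ, dN G T v := by
    apply sum_le_sum
    intro v hv
    rw [mem_erase] at hv
    have := hcon v hv.2 hv.1
    omega
  rw [sum_const, smul_eq_mul, card_erase_of_mem hρ] at h4
  omega

theorem exists_rooted {W : Finset V} {ρ : V} (hW : Sparse G W) :
    ∀ (n : ℕ) (T : Finset V), T.card = n → T ⊆ W → IsSub G T → ρ ∈ T →
      ∃ (par : V → V) (dep : V → ℕ), Rooted T ρ par dep ∧ ∀ v ∈ T, v ≠ ρ → G.Adj v (par v) := by
  classical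
  intro n
  induction n with
  | zero =>
    intro T hc _ hs _
    rw [card_eq_zero] at hc
    subst hc
    exact absurd hs.1 (by simp)
  | succ n ih =>
    intro T hc hT hs hρ
    by_cases hne : T = {ρ}
    · subst hne
      refine ⟨fun _ => ρ, fun _ => 0, ⟨by simp, by simp, rfl, ?_⟩, ?_⟩
      · intro v hv hvρ
        exact absurd (by simpa using hv) hvρ
      · intro v hv hvρ
        exact absurd (by simpa using hv) hvρ
    · obtain ⟨v, hv, hvρ, hdv⟩ := exists_leaf_ne hW hT hs hρ hne
      have hTv : T ≠ {v} := by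
        intro h
        rw [h, mem_singleton] at hρ
        exact hvρ hρ.symm
      have hs' : IsSub G (T.erase v) := hs.erase_leaf (hW.mono G hT) subset_rfl hdv hTv
      obtain ⟨u, hu, hau⟩ := hs.exists_adj hW hT hv hTv
      have huv : u ≠ v := hau.ne'
      have hρ' : ρ ∈ T.erase v := mem_erase.mpr ⟨hvρ.symm, hρ⟩
      have hu' : u ∈ T.erase v := mem_erase.mpr ⟨huv, hu⟩
      obtain ⟨par, dep, hR, hadj⟩ := ih (T.erase v) (by rw [card_erase_of_mem hv, hc]; rfl)
        ((erase_subset _ _).trans hT) hs' hρ'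
      refine ⟨Function.update par v u, Function.update dep v (dep u + 1), ⟨hρ, ?_, ?_, ?_⟩, ?_⟩
      · intro w hw
        by_cases hwv : w = v
        · subst hwv
          rw [Function.update_self]
          exact hu
        · rw [Function.update_of_ne hwv]
          exact mem_of_mem_erase (hR.par_mem w (mem_erase.mpr ⟨hwv, hw⟩))
      · rw [Function.update_of_ne hvρ.symm]
        exact hR.dep_root
      · intro w hw hwρ
        by_cases hwv : w = v
        · subst hwv
          rw [Function.update_self, Function.update_self, Function.update_of_ne huv]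
        · have h1 := hR.par_mem w (mem_erase.mpr ⟨hwv, hw⟩)
          rw [Function.update_of_ne hwv, Function.update_of_ne hwv,
            Function.update_of_ne (ne_of_mem_erase h1)]
          exact hR.dep_par w (mem_erase.mpr ⟨hwv, hw⟩) hwρ
      · intro w hw hwρ
        by_cases hwv : w = v
        · subst hwv
          rw [Function.update_self]
          exact hau
        · rw [Function.update_of_ne hwv]
          exact hadj w (mem_erase.mpr ⟨hwv, hw⟩) hwρ

variable {T : Finset V} {ρ : V} {par : V → V} {dep : V → ℕ}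

theorem Rooted.ne_root (R : Rooted T ρ par dep) {v : V} (h : 0 < dep v) : v ≠ ρ := by
  intro h1
  rw [h1, R.dep_root] at h
  omega

theorem Rooted.iter (R : Rooted T ρ par dep) {v : V} (hv : v ∈ T) :
    ∀ i, i ≤ dep v → par^[i] v ∈ T ∧ dep (par^[i] v) + i = dep v := by
  intro i
  induction i with
  | zero => intro _; exact ⟨hv, rfl⟩
  | succ i ih =>
    intro hi
    obtain ⟨h1, h2⟩ := ih (by omega)
    rw [Function.iterate_succ_apply']
    have h3 := R.dep_par _ h1 (R.ne_root (by omega))
    exact ⟨R.par_mem _ h1, by omega⟩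

theorem Rooted.iter_mem (R : Rooted T ρ par dep) {v : V} (hv : v ∈ T) {i : ℕ} (hi : i ≤ dep v) :
    par^[i] v ∈ T := (R.iter hv i hi).1

theorem Rooted.dep_iter (R : Rooted T ρ par dep) {v : V} (hv : v ∈ T) {i : ℕ} (hi : i ≤ dep v) :
    dep (par^[i] v) + i = dep v := (R.iter hv i hi).2

theorem Rooted.iter_inj (R : Rooted T ρ par dep) {v : V} (hv : v ∈ T) {i j : ℕ} (hi : i ≤ dep v)
    (hj : j ≤ dep v) (h : par^[i] v = par^[j] v) : i = j := by
  have h1 := R.dep_iter hv hi
  have h2 := R.dep_iter hv hj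
  rw [h] at h1
  omega

theorem Rooted.eq_root (R : Rooted T ρ par dep) {v : V} (hv : v ∈ T) (h : dep v = 0) : v = ρ := by
  by_contra hne
  have := R.dep_par v hv hne
  omega

theorem Rooted.iter_dep (R : Rooted T ρ par dep) {v : V} (hv : v ∈ T) : par^[dep v] v = ρ := by
  apply R.eq_root (R.iter_mem hv le_rfl)
  have := R.dep_iter hv le_rfl
  omega

/-- two vertices whose ancestors meet -/
theorem Rooted.shift {u w : V} {i j : ℕ} (h : par^[i] u = par^[j] w) (s : ℕ) :
    par^[i + s] u = par^[j + s] w := by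
  rw [Nat.add_comm i s, Nat.add_comm j s, Function.iterate_add_apply, Function.iterate_add_apply, h]

/-- the vertices of the path from `v` upwards, indices in `I` -/
def seg {V : Type*} [DecidableEq V] (par : V → V) (v : V) (I : Finset ℕ) : Finset V :=
  I.image (fun s => par^[s] v)

theorem mem_seg {v z : V} {I : Finset ℕ} : z ∈ seg par v I ↔ ∃ s ∈ I, par^[s] v = z := by
  simp [seg]

theorem Rooted.card_seg (R : Rooted T ρ par dep) {v : V} (hv : v ∈ T) {I : Finset ℕ}
    (hI : ∀ s ∈ I, s ≤ dep v) : (seg par v I).card = I.card := by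
  unfold seg
  apply card_image_of_injOn
  intro s hs t ht h
  exact R.iter_inj hv (hI s hs) (hI t ht) h

theorem Rooted.seg_subset (R : Rooted T ρ par dep) {v : V} (hv : v ∈ T) {I : Finset ℕ}
    (hI : ∀ s ∈ I, s ≤ dep v) : seg par v I ⊆ T := by
  intro z hz
  rw [mem_seg] at hz
  obtain ⟨s, hs, rfl⟩ := hz
  exact R.iter_mem hv (hI s hs)

theorem Rooted.isSub_seg (R : Rooted T ρ par dep)
    (hadj : ∀ v ∈ T, v ≠ ρ → G.Adj v (par v)) {v : V} (hv : v ∈ T) :
    ∀ i, i ≤ dep v → IsSub G (seg par v (range (i + 1))) := by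
  intro i
  induction i with
  | zero =>
    intro _
    have : seg par v (range (0 + 1)) = {v} := by
      ext z
      simp [mem_seg, eq_comm]
    rw [this]
    exact isSub_singleton v
  | succ i ih =>
    intro hi
    have h1 := ih (by omega)
    have h2 : seg par v (range (i + 1 + 1)) =
        insert (par^[i + 1] v) (seg par v (range (i + 1))) := by
      rw [range_add_one, seg, image_insert]
      rfl
    rw [h2]
    have h3 : par^[i] v ∈ seg par v (range (i + 1)) := mem_seg.2 ⟨i, by simp, rfl⟩
    refine h1.insert_of_adj h3 ?_ ?_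
    · rw [mem_seg]
      rintro ⟨s, hs, h⟩
      rw [mem_range] at hs
      have := R.iter_inj hv (by omega) hi h
      omega
    · rw [Function.iterate_succ_apply']
      apply SimpleGraph.Adj.symm
      apply hadj _ (R.iter_mem hv (by omega))
      apply R.ne_root
      have := R.dep_iter hv (i := i) (by omega)
      omega

theorem Rooted.dd_le {W : Finset V} (R : Rooted T ρ par dep) (hW : Sparse G W) (hT : T ⊆ W)
    (hadj : ∀ v ∈ T, v ≠ ρ → G.Adj v (par v)) {u w : V} (hu : u ∈ T) (hw : w ∈ T) {i j : ℕ}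
    (hi : i ≤ dep u) (hj : j ≤ dep w) (h : par^[i] u = par^[j] w) : dd G W u w ≤ i + j := by
  have hIu : ∀ s ∈ range (i + 1), s ≤ dep u := fun s hs => by rw [mem_range] at hs; omega
  have hIw : ∀ s ∈ range (j + 1), s ≤ dep w := fun s hs => by rw [mem_range] at hs; omega
  have h1 := R.isSub_seg hadj hu i hi
  have h2 := R.isSub_seg hadj hw j hj
  have hzu : par^[i] u ∈ seg par u (range (i + 1)) := mem_seg.2 ⟨i, by simp, rfl⟩
  have hzw : par^[i] u ∈ seg par w (range (j + 1)) := mem_seg.2 ⟨j, by simp, h.symm⟩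
  have hne : (seg par u (range (i + 1)) ∩ seg par w (range (j + 1))).Nonempty :=
    ⟨_, mem_inter.2 ⟨hzu, hzw⟩⟩
  have hsu := R.seg_subset hu hIu
  have hsw := R.seg_subset hw hIw
  have h3 := h1.union hW (hsu.trans hT) h2 hne
  have h4 := Pool.Agent.H38.dd_le (G := G) (W := W) (p := u) (q := w)
    (union_subset (hsu.trans hT) (hsw.trans hT)) h3
    (mem_union_left _ (mem_seg.2 ⟨0, by simp, rfl⟩))
    (mem_union_right _ (mem_seg.2 ⟨0, by simp, rfl⟩))
  have h5 := card_union_add_card_inter (seg par u (range (i + 1))) (seg par w (range (j + 1)))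
  have h6 := card_pos.2 hne
  rw [R.card_seg hu hIu, R.card_seg hw hIw, card_range, card_range] at h5
  omega

end

end Pool.Agent.H45.GF
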