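import Pool.Agent.H45.GF.EPe
import Pool.Agent.H45.GF.Tree
import Pool.Agent.H17.GM.CW
import Pool.Agent.H38.Interface

/-!
# MP_f50317_co, girth 1, 2 mod 4: upper bound `(1 + 1/l) n + O(1)` for every `k` (helper45)
-/

set_option autoImplicit false
set_option linter.unusedSectionVars false
set_option linter.unusedVariables false

namespace Pool.Agent.H45.GF

open Finset Pool.Agent.H38

section
variable {V : Type*} [DecidableEq V] [Fintype V] {G : SimpleGraph V}

theorem upper_hitting {l : ℕ} (hl : 1 ≤ l)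
    (hg : ∀ U : Finset V, U.card < 4 * l + 1 → ¬ Dense G U) (X : Finset V)
    (hX : Sparse G (univ \ X)) :
    l * eI G univ ≤ (l + 1) * Fintype.card V + 2 * l * (X.card * X.card) := by
  classical
  set W : Finset V := univ \ X with hW
  have hd : Disjoint X W := disjoint_sdiff
  have hun : X ∪ W = univ := union_sdiff_of_subset (subset_univ _)
  have h1 := Pool.Agent.H17.GM.edge_count hX hd hg
  rw [hun] at h1
  have h2 : ∀ C ∈ comps G W, l * (∑ x ∈ X, (Pool.Agent.H17.GM.Lam G X W l x ∩ C).card) ≤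
      C.card + l := by
    intro C hC
    obtain ⟨hCW, hCs, _, _⟩ := comps_spec hX hC
    by_cases hL : 2 ≤ ∑ x ∈ X, (Pool.Agent.H17.GM.Lam G X W l x ∩ C).card
    · have h3 := basic_bound hX hl hCW hCs X (Pool.Agent.H17.GM.Lam G X W l)
        (Pool.Agent.H17.GM.Lam_dist hX hCW hCs)
        (by
          intro x hx p hp q hq hpq hpT hqT
          have := Pool.Agent.H17.GM.Lam_dist' hX hCW hCs hd hg x hx p hp q hq hpq hpT hqT
          omega) hL
      omega
    · have : l * (∑ x ∈ X, (Pool.Agent.H17.GM.Lam G X W l x ∩ C).card) ≤ l * 1 :=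
        Nat.mul_le_mul_left _ (by omega)
      omega
  have h3 := sum_le_sum h2
  rw [← mul_sum, sum_add_distrib, sum_const, smul_eq_mul, ← card_comps hX] at h3
  have h4 : W.card + X.card = Fintype.card V := by
    rw [← card_univ]
    exact card_sdiff_add_card_eq_card (subset_univ _)
  have h5 := Nat.mul_le_mul_left l h1
  nlinarith

/-- the upper bound for every `k`, with the constant of Erdos-Posa -/
theorem upper_all {l k : ℕ} (hl : 1 ≤ l)
    (hg : ((4 * l + 1 : ℕ) : ℕ∞) ≤ G.egirth) (hP : ¬ HasDisjointCycles G k) :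
    l * G.edgeSet.ncard ≤ (l + 1) * Fintype.card V +
      2 * l * ((2 ^ (40 * k + 1) + 2 * k) * (2 ^ (40 * k + 1) + 2 * k)) := by
  classical
  rw [egirth_iff] at hg
  rw [← pack_iff] at hP
  obtain ⟨X, hXc, hXs⟩ := erdos_posa G k hP
  rw [← eI_univ_eq]
  refine (upper_hitting hl hg X hXs).trans ?_
  exact Nat.add_le_add_left (Nat.mul_le_mul_left _ (Nat.mul_le_mul hXc hXc)) _

end

end Pool.Agent.H45.GF
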